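import Mathlib

set_option autoImplicit false

namespace Pool.Agent.H44E

open Finset

/-- The `r`-th prime. -/
noncomputable def pr (r : ℕ) : ℕ := Nat.nth Nat.Prime r

lemma pr_prime (r : ℕ) : (pr r).Prime := Nat.prime_nth_prime r

lemma pr_strictMono : StrictMono pr := Nat.nth_strictMono Nat.infinite_setOfPred_prime

lemma pr_inj {i j : ℕ} : pr i = pr j ↔ i = j := pr_strictMono.injective.eq_iff

/-- Indices of primes which get multiplied by the square of their predecessor. -/
def Cond (s T r : ℕ) : Prop := r < T ∧ r % (s + 1) ≠ 0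

instance (s T r : ℕ) : Decidable (Cond s T r) := by unfold Cond; infer_instance

/-- The generator attached to the `r`-th prime. -/
noncomputable def ga (s T r : ℕ) : ℕ := if Cond s T r then pr (r - 1) ^ 2 * pr r else pr r

/-- Indices of the additional generators. -/
def ex (s T : ℕ) : Finset ℕ := (range T).filter fun j => j % (s + 1) = s

/-- The set of generators. -/
noncomputable def gen (s T R : ℕ) : Finset ℕ := (range R).image (ga s T) ∪ (ex s T).image pr

lemma cond_pos {s T r : ℕ} (h : Cond s T r) : 1 ≤ r := by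
  rcases Nat.eq_zero_or_pos r with h0 | h0
  · subst h0
    exact absurd (Nat.zero_mod _) h.2
  · exact h0

lemma fact_pr (i j : ℕ) : (pr i).factorization (pr j) = if i = j then 1 else 0 := by
  rw [(pr_prime i).factorization, Finsupp.single_apply]
  simp only [pr_inj]

lemma fact_ga (s T r j : ℕ) : (ga s T r).factorization (pr j) =
    (if r = j then 1 else 0) + (if Cond s T r ∧ r = j + 1 then 2 else 0) := by
  unfold ga
  split_ifs with h1 h2 h3 h3 h2 h3 h3
  · omega
  · subst h2
    rw [Nat.factorization_mul (pow_ne_zero _ (pr_prime _).ne_zero) (pr_prime _).ne_zero,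
      Nat.factorization_pow]
    simp only [Finsupp.coe_add, Pi.add_apply, Finsupp.smul_apply, fact_pr, smul_eq_mul]
    have := cond_pos h1
    rw [if_neg (by omega)]
    simp
  · rw [Nat.factorization_mul (pow_ne_zero _ (pr_prime _).ne_zero) (pr_prime _).ne_zero,
      Nat.factorization_pow]
    simp only [Finsupp.coe_add, Pi.add_apply, Finsupp.smul_apply, fact_pr, smul_eq_mul]
    rw [if_neg h2, if_pos (by omega)]
  · rw [Nat.factorization_mul (pow_ne_zero _ (pr_prime _).ne_zero) (pr_prime _).ne_zero,
      Nat.factorization_pow]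
    simp only [Finsupp.coe_add, Pi.add_apply, Finsupp.smul_apply, fact_pr, smul_eq_mul]
    have := cond_pos h1
    rw [if_neg h2, if_neg (fun h => h3 ⟨h1, by omega⟩)]
  · exact absurd h3.1 h1
  · rw [fact_pr, if_pos h2]
  · exact absurd h3.1 h1
  · rw [fact_pr, if_neg h2]

lemma ga_ne_zero (s T r : ℕ) : ga s T r ≠ 0 := by
  unfold ga
  split_ifs
  · exact mul_ne_zero (pow_ne_zero _ (pr_prime _).ne_zero) (pr_prime _).ne_zero
  · exact (pr_prime _).ne_zero

lemma two_le_ga (s T r : ℕ) : 2 ≤ ga s T r := by
  unfold ga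
  split_ifs
  · have h1 := (pr_prime (r - 1)).two_le
    have h2 := (pr_prime r).two_le
    nlinarith
  · exact (pr_prime _).two_le

lemma ga_injective (s T : ℕ) : Function.Injective (ga s T) := by
  have key : ∀ r r', ga s T r = ga s T r' → r ≤ r' := by
    intro r r' h
    have h1 := fact_ga s T r r
    rw [h, fact_ga, if_pos rfl] at h1
    by_contra hcon
    rw [if_neg (by omega), if_neg (by omega)] at h1
    omega
  intro r r' h
  exact le_antisymm (key r r' h) (key r' r h.symm)

lemma ga_ne_pr {s T : ℕ} (hs : 1 ≤ s) (r : ℕ) {j : ℕ} (hj : j ∈ ex s T) : ga s T r ≠ pr j := by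
  intro h
  rw [ex, mem_filter, mem_range] at hj
  have hcj : Cond s T j := ⟨hj.1, by omega⟩
  by_cases hr : Cond s T r
  · have h1 := fact_ga s T r (r - 1)
    have := cond_pos hr
    rw [h, fact_pr, if_neg (by omega : r ≠ r - 1),
      if_pos (show Cond s T r ∧ r = r - 1 + 1 from ⟨hr, by omega⟩)] at h1
    split_ifs at h1 <;> omega
  · have h1 : ga s T r = pr r := if_neg hr
    rw [h1, pr_inj] at h
    subst h
    exact hr hcj

lemma prod_gen {s T : ℕ} (hs : 1 ≤ s) (R : ℕ) (K : ℕ → ℕ) :
    ∏ x ∈ gen s T R, x ^ K x =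
      (∏ r ∈ range R, ga s T r ^ K (ga s T r)) * ∏ j ∈ ex s T, pr j ^ K (pr j) := by
  unfold gen
  rw [prod_union, prod_image, prod_image]
  · exact fun i _ j _ h => pr_inj.1 h
  · exact fun i _ j _ h => ga_injective s T h
  · rw [disjoint_left]
    intro x hx hx'
    obtain ⟨r, _, rfl⟩ := mem_image.1 hx
    obtain ⟨j, hj, hj'⟩ := mem_image.1 hx'
    exact ga_ne_pr hs r hj hj'.symm

lemma fact_prod {s T R : ℕ} (hs : 1 ≤ s) (hT : T ≤ R) (K : ℕ → ℕ) {j : ℕ} (hj : j < R) :
    (∏ x ∈ gen s T R, x ^ K x).factorization (pr j) =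
      K (ga s T j) + (if Cond s T (j + 1) then 2 * K (ga s T (j + 1)) else 0) +
        (if j ∈ ex s T then K (pr j) else 0) := by
  rw [prod_gen hs, Nat.factorization_mul
    (prod_ne_zero_iff.2 fun r _ => pow_ne_zero _ (ga_ne_zero s T r))
    (prod_ne_zero_iff.2 fun j _ => pow_ne_zero _ (pr_prime j).ne_zero),
    Nat.factorization_prod (fun r _ => pow_ne_zero _ (ga_ne_zero s T r)),
    Nat.factorization_prod (fun j _ => pow_ne_zero _ (pr_prime j).ne_zero)]
  simp only [Nat.factorization_pow, Finsupp.coe_add, Pi.add_apply, Finsupp.finsetSum_apply,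
    Finsupp.smul_apply, smul_eq_mul, fact_ga, fact_pr]
  congr 1
  · have h1 : ∀ r ∈ range R, K (ga s T r) * ((if r = j then 1 else 0) +
        (if Cond s T r ∧ r = j + 1 then 2 else 0)) =
        (if r = j then K (ga s T r) else 0) +
          (if r = j + 1 then (if Cond s T r then 2 * K (ga s T r) else 0) else 0) := by
      intro r _
      split_ifs <;> first | omega | simp_all
    rw [sum_congr rfl h1, sum_add_distrib, sum_ite_eq' (range R) j, sum_ite_eq' (range R) (j + 1)]
    rw [if_pos (mem_range.2 hj)]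
    congr 1
    by_cases hc : Cond s T (j + 1)
    · rw [if_pos (mem_range.2 (lt_of_lt_of_le hc.1 hT))]
    · simp [hc]
  · simp only [mul_ite, mul_one, mul_zero]
    rw [sum_ite_eq']

/-- Two different products of the generators with the same value are huge. -/
lemma no_coincidence {s T R : ℕ} (hs : 1 ≤ s) (hT : T ≤ R) (K L : ℕ → ℕ)
    (hne : ∃ x ∈ gen s T R, K x ≠ L x)
    (heq : ∏ x ∈ gen s T R, x ^ K x = ∏ x ∈ gen s T R, x ^ L x) :
    2 ^ (2 ^ s) ≤ ∏ x ∈ gen s T R, x ^ K x := by
  have hv : ∀ j < R, K (ga s T j) + (if Cond s T (j + 1) then 2 * K (ga s T (j + 1)) else 0) +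
        (if j ∈ ex s T then K (pr j) else 0) =
      L (ga s T j) + (if Cond s T (j + 1) then 2 * L (ga s T (j + 1)) else 0) +
        (if j ∈ ex s T then L (pr j) else 0) := by
    intro j hj
    rw [← fact_prod hs hT K hj, ← fact_prod hs hT L hj, heq]
  -- some additional generator has different exponents
  have h1 : ∃ j ∈ ex s T, K (pr j) ≠ L (pr j) := by
    by_contra hcon
    push Not at hcon
    have h2 : ∀ d j, j + d + 1 = R → K (ga s T j) = L (ga s T j) := by
      intro d
      induction d with
      | zero =>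
        intro j hj
        have h3 := hv j (by omega)
        have h4 : ¬ Cond s T (j + 1) := fun h => by have := h.1; omega
        rw [if_neg h4, if_neg h4] at h3
        by_cases hjx : j ∈ ex s T
        · rw [if_pos hjx, if_pos hjx, hcon j hjx] at h3
          omega
        · rw [if_neg hjx, if_neg hjx] at h3
          omega
      | succ d ih =>
        intro j hj
        have h3 := hv j (by omega)
        rw [ih (j + 1) (by omega)] at h3
        by_cases hjx : j ∈ ex s T
        · rw [if_pos hjx, if_pos hjx, hcon j hjx] at h3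
          omega
        · rw [if_neg hjx, if_neg hjx] at h3
          omega
    obtain ⟨x, hx, hxne⟩ := hne
    rw [gen, mem_union, mem_image, mem_image] at hx
    rcases hx with ⟨r, hr, rfl⟩ | ⟨j, hj, rfl⟩
    · have hr' := mem_range.1 hr
      exact hxne (h2 (R - r - 1) r (by omega))
    · exact hxne (hcon j hj)
  obtain ⟨j, hj, hjne⟩ := h1
  have hj' := hj
  rw [ex, mem_filter, mem_range] at hj'
  set c := j / (s + 1) with hc
  have hjc : j = c * (s + 1) + s := by
    have := Nat.div_add_mod j (s + 1)
    rw [hj'.2] at this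
    rw [hc]
    linarith [mul_comm (s + 1) (j / (s + 1))]
  have hmod : ∀ i, i ≤ s → (c * (s + 1) + i) % (s + 1) = i := by
    intro i hi
    rw [add_comm, Nat.add_mul_mod_self_right, Nat.mod_eq_of_lt (by omega)]
  have hlow : ∀ i, i ≤ s → c * (s + 1) + i < T := by
    intro i hi
    omega
  let D : ℕ → ℤ := fun i => (K (ga s T (c * (s + 1) + i)) : ℤ) - L (ga s T (c * (s + 1) + i))
  let e : ℤ := (K (pr j) : ℤ) - L (pr j)
  have he : e ≠ 0 := by
    simp only [e]
    intro h
    apply hjne
    have : (K (pr j) : ℤ) = L (pr j) := by linarith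
    exact_mod_cast this
  have hDs : D s = -e := by
    have h3 := hv j (by omega)
    have h4 : ¬ Cond s T (j + 1) := by
      intro h
      apply h.2
      rw [hjc, add_assoc, Nat.mul_comm, Nat.mul_add_mod]
      exact Nat.mod_self _
    rw [if_neg h4, if_neg h4, if_pos hj, if_pos hj] at h3
    simp only [D, e]
    rw [← hjc]
    omega
  have hDi : ∀ i, i < s → D i = -2 * D (i + 1) := by
    intro i hi
    have h3 := hv (c * (s + 1) + i) (by have := hlow i hi.le; omega)
    have h4 : Cond s T (c * (s + 1) + i + 1) := by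
      refine ⟨by have := hlow (i + 1) hi; omega, ?_⟩
      have := hmod (i + 1) hi
      rw [← add_assoc] at this
      omega
    have h5 : c * (s + 1) + i ∉ ex s T := by
      rw [ex, mem_filter]
      rintro ⟨_, h⟩
      rw [hmod i hi.le] at h
      omega
    rw [if_pos h4, if_pos h4, if_neg h5, if_neg h5] at h3
    simp only [D]
    rw [← add_assoc]
    omega
  have hD0 : ∀ d i, i + d = s → |D i| = 2 ^ d * |e| := by
    intro d
    induction d with
    | zero =>
      intro i hi
      have : i = s := by omega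
      rw [this, hDs, abs_neg]
      ring
    | succ d ih =>
      intro i hi
      rw [hDi i (by omega), abs_mul, ih (i + 1) (by omega)]
      norm_num
      ring
  have h6 := hD0 s 0 (by omega)
  have h7 : (2 : ℤ) ^ s ≤ |D 0| := by
    rw [h6]
    have : 1 ≤ |e| := Int.one_le_abs he
    have h2s : (0 : ℤ) < 2 ^ s := by positivity
    nlinarith
  have h8 : 2 ^ s ≤ K (ga s T (c * (s + 1))) ∨ 2 ^ s ≤ L (ga s T (c * (s + 1))) := by
    simp only [D, add_zero] at h7
    by_contra hcon
    push Not at hcon
    have h9 : ((K (ga s T (c * (s + 1))) : ℕ) : ℤ) < 2 ^ s := by exact_mod_cast hcon.1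
    have h10 : ((L (ga s T (c * (s + 1))) : ℕ) : ℤ) < 2 ^ s := by exact_mod_cast hcon.2
    rw [le_abs] at h7
    rcases h7 with h7 | h7 <;> omega
  have hbig : ∀ K : ℕ → ℕ, 2 ^ s ≤ K (ga s T (c * (s + 1))) →
      2 ^ (2 ^ s) ≤ ∏ x ∈ gen s T R, x ^ K x := by
    intro K hK
    have hmem : ga s T (c * (s + 1)) ∈ gen s T R := by
      rw [gen, mem_union]
      left
      refine mem_image_of_mem _ (mem_range.2 ?_)
      have := hlow 0 (by omega)
      omega
    have hpos : ∀ x ∈ gen s T R, 1 ≤ x ^ K x := by
      intro x hx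
      apply Nat.one_le_pow
      rw [gen, mem_union, mem_image, mem_image] at hx
      rcases hx with ⟨r, _, rfl⟩ | ⟨j, _, rfl⟩
      · exact Nat.pos_of_ne_zero (ga_ne_zero s T r)
      · exact (pr_prime j).pos
    calc 2 ^ (2 ^ s) ≤ (ga s T (c * (s + 1))) ^ (2 ^ s) := Nat.pow_le_pow_left (two_le_ga _ _ _) _
      _ ≤ (ga s T (c * (s + 1))) ^ K (ga s T (c * (s + 1))) :=
          Nat.pow_le_pow_right (by have := two_le_ga s T (c * (s + 1)); omega) hK
      _ ≤ ∏ x ∈ gen s T R, x ^ K x :=
          single_le_prod' (f := fun x => x ^ K x) hpos hmem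
  rcases h8 with h8 | h8
  · exact hbig K h8
  · rw [heq]
    exact hbig L h8

lemma card_ex (s t : ℕ) : t ≤ (ex s (t * (s + 1))).card := by
  have h1 : (range t).image (fun c => c * (s + 1) + s) ⊆ ex s (t * (s + 1)) := by
    intro x hx
    obtain ⟨c, hc, rfl⟩ := mem_image.1 hx
    rw [ex, mem_filter, mem_range]
    constructor
    · have hc' := mem_range.1 hc
      have : (c + 1) * (s + 1) ≤ t * (s + 1) := Nat.mul_le_mul_right _ hc'
      linarith [Nat.add_mul c 1 (s + 1)]
    · rw [add_comm, Nat.add_mul_mod_self_right, Nat.mod_eq_of_lt (by omega)]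
  calc t = (range t).card := (card_range t).symm
    _ = ((range t).image (fun c => c * (s + 1) + s)).card := by
        rw [card_image_of_injective]
        intro a b hab
        simpa using hab
    _ ≤ _ := card_le_card h1

end Pool.Agent.H44E
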