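import Pool.Agent.H44E.Extend

set_option autoImplicit false

namespace Pool.Agent.H44E

open Finset MeasureTheory

/-- The common excess of the exponents. -/
noncomputable def dl (Y : ℕ) : ℝ := 1 / (Y : ℝ) ^ 2

/-- The size of the perturbation of the exponents. -/
noncomputable def sg (Y : ℕ) : ℝ := 1 / (2 * (Y : ℝ) ^ 8 * 2 ^ (Y ^ 6))

lemma dl_pos {Y : ℕ} (hY : 5 ≤ Y) : 0 < dl Y := by
  have : (0 : ℝ) < Y := by positivity
  unfold dl; positivity

lemma sg_pos {Y : ℕ} (hY : 5 ≤ Y) : 0 < sg Y := by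
  have : (0 : ℝ) < Y := by positivity
  unfold sg; positivity

lemma H1_aux {Y m : ℕ} (hY : 5 ≤ Y) (hm : m + 1 ≤ Y) :
    64 * (((Y ^ 6 + Y ^ 4 : ℕ) : ℝ) + 1) ^ (2 * (m + 1)) ≤ sg Y * 2 ^ (Y ^ 6 + Y ^ 4) := by
  have hY2 : Y ≤ 2 ^ Y := (Nat.lt_two_pow_self).le
  have h1 : Y ^ 6 + Y ^ 4 + 1 ≤ 2 ^ (2 + 6 * Y) := by
    have h2 : Y ^ 4 ≤ Y ^ 6 := Nat.pow_le_pow_right (by omega) (by norm_num)
    have h3 : 1 ≤ Y ^ 6 := Nat.one_le_pow _ _ (by omega)
    calc Y ^ 6 + Y ^ 4 + 1 ≤ 2 ^ 2 * Y ^ 6 := by omega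
      _ ≤ 2 ^ 2 * (2 ^ Y) ^ 6 := by gcongr
      _ = 2 ^ (2 + 6 * Y) := by rw [pow_add, ← pow_mul, mul_comm Y 6]
  have h2 : 128 * Y ^ 8 * (Y ^ 6 + Y ^ 4 + 1) ^ (2 * (m + 1)) ≤ 2 ^ (Y ^ 4) := by
    calc 128 * Y ^ 8 * (Y ^ 6 + Y ^ 4 + 1) ^ (2 * (m + 1))
        ≤ 2 ^ 7 * (2 ^ Y) ^ 8 * (2 ^ (2 + 6 * Y)) ^ (2 * Y) := by
          gcongr
          · norm_num
          · exact Nat.one_le_two_pow
      _ = 2 ^ (7 + Y * 8 + (2 + 6 * Y) * (2 * Y)) := by
          rw [← pow_mul, ← pow_mul, ← pow_add, ← pow_add]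
      _ ≤ 2 ^ (Y ^ 4) := by
          apply Nat.pow_le_pow_right (by norm_num)
          have h3 : 25 * Y ^ 2 ≤ Y ^ 4 := by nlinarith [Nat.pow_le_pow_left hY 2, sq_nonneg Y]
          nlinarith
  have h2' : 128 * (Y : ℝ) ^ 8 * ((Y : ℝ) ^ 6 + Y ^ 4 + 1) ^ (2 * (m + 1)) ≤ 2 ^ (Y ^ 4) := by
    exact_mod_cast h2
  have hYp : (0 : ℝ) < Y := by positivity
  have h3 : sg Y * 2 ^ (Y ^ 6 + Y ^ 4) = 2 ^ (Y ^ 4) / (2 * (Y : ℝ) ^ 8) := by
    unfold sg
    rw [pow_add]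
    field_simp
  rw [h3, le_div_iff₀ (by positivity)]
  push_cast
  linarith

lemma prod_bounds {Y m : ℕ} (_hY : 5 ≤ Y) {n : ℕ → ℕ} (hn : ∀ i < m, 2 ≤ n i) {θ : ℕ → ℝ}
    (hθ : ∀ i, 0 ≤ θ i ∧ θ i ≤ sg Y) (k : ℕ → ℕ) :
    ((∏ i ∈ range m, n i ^ k i : ℕ) : ℝ) ^ (1 + dl Y) ≤
        ∏ i ∈ range m, ((n i : ℝ) ^ (1 + dl Y + θ i)) ^ k i ∧
      ∏ i ∈ range m, ((n i : ℝ) ^ (1 + dl Y + θ i)) ^ k i ≤
        ((∏ i ∈ range m, n i ^ k i : ℕ) : ℝ) ^ (1 + dl Y + sg Y) := by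
  have hone : ∀ i ∈ range m, (1 : ℝ) ≤ (n i : ℝ) ^ k i := by
    intro i hi
    have : (1 : ℝ) ≤ n i := by exact_mod_cast (by have := hn i (mem_range.1 hi); omega : 1 ≤ n i)
    exact one_le_pow₀ this
  have e : ∀ r : ℝ, ((∏ i ∈ range m, n i ^ k i : ℕ) : ℝ) ^ r = ∏ i ∈ range m, ((n i : ℝ) ^ k i) ^ r := by
    intro r
    push_cast
    rw [Real.finsetProd_rpow _ _ (fun i hi => by linarith [hone i hi])]
  have e2 : ∀ i, ((n i : ℝ) ^ (1 + dl Y + θ i)) ^ k i = ((n i : ℝ) ^ k i) ^ (1 + dl Y + θ i) := by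
    intro i
    rw [Real.rpow_pow_comm (Nat.cast_nonneg _)]
  constructor
  · rw [e]
    refine prod_le_prod (fun i hi => Real.rpow_nonneg (by linarith [hone i hi]) _) fun i hi => ?_
    rw [e2]
    exact Real.rpow_le_rpow_of_exponent_le (hone i hi) (by linarith [(hθ i).1])
  · rw [e]
    refine prod_le_prod (fun i hi => by rw [e2]; exact Real.rpow_nonneg (by linarith [hone i hi]) _)
      fun i hi => ?_
    rw [e2]
    exact Real.rpow_le_rpow_of_exponent_le (hone i hi) (by linarith [(hθ i).2])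

lemma gap_aux {Y : ℕ} (hY : 5 ≤ Y) {N : ℝ} (hN1 : 1 ≤ N) (hN : N ≤ 2 ^ (Y ^ 6)) :
    N ^ (1 + dl Y + sg Y) + 1 ≤ (N + 1) ^ (1 + dl Y) := by
  have hd := dl_pos hY
  have hs := sg_pos hY
  have hYp : (0 : ℝ) < Y := by positivity
  have hN0 : 0 < N := by linarith
  have hlog0 : 0 ≤ Real.log N := Real.log_nonneg hN1
  have hlog : Real.log N ≤ (Y : ℝ) ^ 6 := by
    calc Real.log N ≤ Real.log (2 ^ (Y ^ 6)) := Real.log_le_log hN0 hN
      _ = ((Y ^ 6 : ℕ) : ℝ) * Real.log 2 := Real.log_pow _ _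
      _ ≤ ((Y ^ 6 : ℕ) : ℝ) * 1 := by
          gcongr
          have := Real.log_two_lt_d9
          linarith
      _ = (Y : ℝ) ^ 6 := by push_cast; ring
  have hkey : 2 * sg Y * Real.log N * N ≤ dl Y := by
    calc 2 * sg Y * Real.log N * N ≤ 2 * sg Y * (Y : ℝ) ^ 6 * 2 ^ (Y ^ 6) := by gcongr
      _ = dl Y := by unfold sg dl; field_simp
  have hsl : sg Y * Real.log N ≤ 1 := by
    have h1 : sg Y * Real.log N ≤ 2 * sg Y * Real.log N * N := by
      have : 0 ≤ sg Y * Real.log N := by positivity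
      nlinarith
    have h2 : dl Y ≤ 1 := by
      unfold dl
      rw [div_le_one (by positivity)]
      have : (5 : ℝ) ≤ Y := by exact_mod_cast hY
      nlinarith
    linarith
  have h1 : N ^ sg Y ≤ 1 + 2 * (sg Y * Real.log N) := by
    rw [Real.rpow_def_of_pos hN0, mul_comm]
    have h0 : 0 ≤ sg Y * Real.log N := by positivity
    have := Real.abs_exp_sub_one_le (x := sg Y * Real.log N) (by rw [abs_of_nonneg h0]; exact hsl)
    rw [abs_of_nonneg h0] at this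
    linarith [le_abs_self (Real.exp (sg Y * Real.log N) - 1)]
  have h2 : 1 + (1 + dl Y) * (1 / N) ≤ (1 + 1 / N) ^ (1 + dl Y) := by
    refine one_add_mul_self_le_rpow_one_add ?_ (by linarith)
    have : 0 ≤ 1 / N := by positivity
    linarith
  have h3 : (N + 1) ^ (1 + dl Y) = N ^ (1 + dl Y) * (1 + 1 / N) ^ (1 + dl Y) := by
    rw [← Real.mul_rpow hN0.le (by positivity)]
    congr 1
    field_simp
  have h4 : N ^ (1 + dl Y + sg Y) = N ^ (1 + dl Y) * N ^ sg Y := Real.rpow_add hN0 _ _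
  have hNp : 0 < N ^ (1 + dl Y) := Real.rpow_pos_of_pos hN0 _
  have h5 : N ^ (1 + dl Y) = N * N ^ dl Y := by
    rw [Real.rpow_add hN0, Real.rpow_one]
  have h6 : 1 ≤ N ^ dl Y := Real.one_le_rpow hN1 hd.le
  have h7 : N ^ (1 + dl Y) * ((1 + dl Y) * (1 / N) - 2 * (sg Y * Real.log N)) ≥ 1 := by
    have h8 : (1 + dl Y) * (1 / N) - 2 * (sg Y * Real.log N) ≥ 1 / N := by
      have h9 : 2 * (sg Y * Real.log N) ≤ dl Y / N := by
        rw [le_div_iff₀ hN0]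
        linarith
      have h10 : (1 + dl Y) * (1 / N) = 1 / N + dl Y / N := by ring
      linarith
    calc N ^ (1 + dl Y) * ((1 + dl Y) * (1 / N) - 2 * (sg Y * Real.log N))
        ≥ N ^ (1 + dl Y) * (1 / N) := by gcongr
      _ = N ^ dl Y := by rw [h5]; field_simp
      _ ≥ 1 := h6
  rw [h3, h4]
  nlinarith

lemma gap {Y m : ℕ} (hY : 5 ≤ Y) {n : ℕ → ℕ} (hn : ∀ i < m, 2 ≤ n i) {θ : ℕ → ℝ}
    (hθ : ∀ i, 0 ≤ θ i ∧ θ i ≤ sg Y) (k l : ℕ → ℕ)
    (hlt : ∏ i ∈ range m, n i ^ k i < ∏ i ∈ range m, n i ^ l i)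
    (hle : ∏ i ∈ range m, n i ^ k i ≤ 2 ^ (Y ^ 6)) :
    ∏ i ∈ range m, ((n i : ℝ) ^ (1 + dl Y + θ i)) ^ k i + 1 ≤
      ∏ i ∈ range m, ((n i : ℝ) ^ (1 + dl Y + θ i)) ^ l i := by
  have h1 := (prod_bounds hY hn hθ k).2
  have h2 := (prod_bounds hY hn hθ l).1
  have hpos : 1 ≤ ∏ i ∈ range m, n i ^ k i :=
    Nat.one_le_iff_ne_zero.2 (prod_ne_zero_iff.2 fun i hi =>
      pow_ne_zero _ (by have := hn i (mem_range.1 hi); omega))
  have h3 := gap_aux hY (N := ((∏ i ∈ range m, n i ^ k i : ℕ) : ℝ)) (by exact_mod_cast hpos)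
    (by exact_mod_cast hle)
  have h4 : (((∏ i ∈ range m, n i ^ k i : ℕ) : ℝ) + 1) ^ (1 + dl Y) ≤
      ((∏ i ∈ range m, n i ^ l i : ℕ) : ℝ) ^ (1 + dl Y) := by
    apply Real.rpow_le_rpow (by positivity) _ (by linarith [dl_pos hY])
    exact_mod_cast hlt
  linarith

/-- The exponents can be perturbed so that the family becomes `1`-separated. -/
lemma perturb {Y : ℕ} (hY : 5 ≤ Y) (m : ℕ) (hm : m ≤ Y) (n : ℕ → ℕ) (hn : ∀ i < m, 2 ≤ n i)
    (hNC : ∀ k l : ℕ → ℕ, (∃ i < m, k i ≠ l i) →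
      ∏ i ∈ range m, n i ^ k i = ∏ i ∈ range m, n i ^ l i →
      2 ^ (Y ^ 6) < ∏ i ∈ range m, n i ^ k i) :
    ∃ θ : ℕ → ℝ, (∀ i, 0 ≤ θ i ∧ θ i ≤ sg Y) ∧
      SepOn (fun i => (n i : ℝ) ^ (1 + dl Y + θ i)) m := by
  classical
  induction m with
  | zero =>
    refine ⟨fun _ => 0, fun _ => ⟨le_rfl, (sg_pos hY).le⟩, ?_⟩
    rintro k l ⟨i, hi, _⟩
    omega
  | succ m ih =>
    have hd := dl_pos hY
    have hs := sg_pos hY
    obtain ⟨θ, hθ, hsep⟩ := ih (by omega) (fun i hi => hn i (by omega)) (by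
      rintro k l ⟨i, hi, hne⟩ heq
      have e : ∀ k : ℕ → ℕ, ∏ i ∈ range (m + 1), n i ^ (Function.update k m 0) i =
          ∏ i ∈ range m, n i ^ k i := by
        intro k
        rw [prod_range_succ, Function.update_self, pow_zero, mul_one]
        exact prod_congr rfl fun i hi => by
          rw [Function.update_of_ne (by have := mem_range.1 hi; omega)]
      have h1 := hNC (Function.update k m 0) (Function.update l m 0) ⟨i, by omega, by
        rw [Function.update_of_ne (by omega), Function.update_of_ne (by omega)]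
        exact hne⟩ (by rw [e, e]; exact heq)
      rwa [e] at h1)
    have hnm : 2 ≤ n m := hn m (by omega)
    have hnm' : (2 : ℝ) ≤ n m := by exact_mod_cast hnm
    have hnm0 : (0 : ℝ) < n m := by linarith
    have hexp : ∀ u : ℝ, Real.exp ((1 + dl Y) * Real.log (n m) + Real.log (n m) * u) =
        (n m : ℝ) ^ (1 + dl Y + u) := by
      intro u
      rw [Real.rpow_def_of_pos hnm0]
      congr 1
      ring
    have hb2 : ∀ r : ℝ, 0 ≤ r → ∀ x : ℝ, 2 ≤ x → 2 ≤ x ^ (1 + dl Y + r) := by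
      intro r hr x hx
      calc (2 : ℝ) ≤ x := hx
        _ = x ^ (1 : ℝ) := (Real.rpow_one x).symm
        _ ≤ x ^ (1 + dl Y + r) :=
            Real.rpow_le_rpow_of_exponent_le (by linarith) (by linarith)
    have hlogn : 1 / 2 ≤ Real.log (n m) := by
      have h1 : Real.log 2 ≤ Real.log (n m) := Real.log_le_log (by norm_num) hnm'
      have := Real.log_two_gt_d9
      linarith
    obtain ⟨u, hu, hstage⟩ := stage (m := m) (b := fun i => (n i : ℝ) ^ (1 + dl Y + θ i))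
      (fun i hi => hb2 _ (hθ i).1 _ (by exact_mod_cast hn i (by omega)))
      (c := (1 + dl Y) * Real.log (n m)) (w := Real.log (n m)) (p := 0) (h := sg Y)
      hlogn hs (fun u hu => by
        rw [hexp]
        exact hb2 u hu.1 _ hnm') (J₀ := Y ^ 6 + Y ^ 4) (H1_aux hY (by omega)) (by
        have h1 : 5 ^ 5 * Y ≤ Y ^ 6 := by
          calc 5 ^ 5 * Y ≤ Y ^ 5 * Y := by gcongr
            _ = Y ^ 6 := by ring
        omega)
    rw [zero_add] at hu
    rw [hexp] at hstage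
    set θ' : ℕ → ℝ := Function.update θ m u with hθ'def
    have hθ' : ∀ i, 0 ≤ θ' i ∧ θ' i ≤ sg Y := by
      intro i
      by_cases hi : i = m
      · rw [hi, hθ'def, Function.update_self]
        exact ⟨hu.1, hu.2⟩
      · rw [hθ'def, Function.update_of_ne hi]
        exact hθ i
    have hθi : ∀ i < m, θ' i = θ i := fun i hi => by
      rw [hθ'def, Function.update_of_ne (by omega)]
    have hθm : θ' m = u := by rw [hθ'def, Function.update_self]
    refine ⟨θ', hθ', sepOn_succ (hsep.congr fun i hi => by rw [hθi i hi])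
      (fun i hi => hb2 _ (hθ' i).1 _ (by exact_mod_cast hn i (by omega)))
      (by have := hb2 _ (hθ' m).1 _ hnm'; linarith) ?_⟩
    intro k l hkl
    have e1 : ∀ k : ℕ → ℕ, ((n m : ℝ) ^ (1 + dl Y + θ' m)) ^ k m *
        ∏ i ∈ range m, ((n i : ℝ) ^ (1 + dl Y + θ' i)) ^ k i =
        ∏ i ∈ range (m + 1), ((n i : ℝ) ^ (1 + dl Y + θ' i)) ^ k i := by
      intro k
      rw [prod_range_succ, mul_comm]
    have e2 : ∀ k : ℕ → ℕ, ((n m : ℝ) ^ (1 + dl Y + u)) ^ k m *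
        ∏ i ∈ range m, ((n i : ℝ) ^ (1 + dl Y + θ i)) ^ k i =
        ∏ i ∈ range (m + 1), ((n i : ℝ) ^ (1 + dl Y + θ' i)) ^ k i := by
      intro k
      rw [← e1, hθm]
      congr 1
      exact prod_congr rfl fun i hi => by rw [hθi i (mem_range.1 hi)]
    rw [e1, e1]
    set N := ∏ i ∈ range (m + 1), n i ^ k i with hN
    set N' := ∏ i ∈ range (m + 1), n i ^ l i with hN'
    have hfin : 2 ^ (Y ^ 6) < N → 1 ≤
        |∏ i ∈ range (m + 1), ((n i : ℝ) ^ (1 + dl Y + θ' i)) ^ k i -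
          ∏ i ∈ range (m + 1), ((n i : ℝ) ^ (1 + dl Y + θ' i)) ^ l i| := by
      intro hbig
      have h1 := hstage (k m) (l m) k l hkl
      rw [e2, e2] at h1
      refine h1 (le_trans ?_ (le_max_left _ _))
      refine le_trans ?_ (prod_bounds hY hn hθ' k).1
      have hYp : (0 : ℝ) < Y := by positivity
      have h2 : (2 : ℝ) ^ (Y ^ 6 + Y ^ 4) = ((2 : ℝ) ^ (Y ^ 6)) ^ (1 + dl Y) := by
        rw [← Real.rpow_natCast, ← Real.rpow_natCast, ← Real.rpow_mul (by norm_num)]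
        congr 1
        push_cast
        unfold dl
        field_simp
      rw [h2]
      apply Real.rpow_le_rpow (by positivity) _ (by linarith)
      exact_mod_cast hbig.le
    rcases lt_trichotomy N N' with hlt | heq | hgt
    · by_cases hsm : N ≤ 2 ^ (Y ^ 6)
      · have h1 := gap hY hn hθ' k l hlt hsm
        rw [abs_sub_comm]
        exact le_trans (by linarith) (le_abs_self _)
      · exact hfin (not_le.1 hsm)
    · refine hfin (hNC k l ⟨m, by omega, hkl⟩ heq)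
    · by_cases hsm : N' ≤ 2 ^ (Y ^ 6)
      · have h1 := gap hY hn hθ' l k hgt hsm
        exact le_trans (by linarith) (le_abs_self _)
      · exact hfin (lt_trans (not_le.1 hsm) hgt)

end Pool.Agent.H44E
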