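import Mathlib
import Pool.Agent.H44E.Perturb
import Pool.Agent.H44E.Chain

set_option autoImplicit false

namespace Pool.Agent.H44E

open Finset N44b300f8

lemma pr_le_iff (r Y : ℕ) : pr r ≤ Y ↔ r < Nat.primeCounting Y := by
  constructor
  · intro h
    have h1 : Nat.count Nat.Prime (pr r + 1) = r + 1 :=
      Nat.count_nth_succ_of_infinite Nat.infinite_setOfPred_prime r
    have h2 : Nat.count Nat.Prime (pr r + 1) ≤ Nat.count Nat.Prime (Y + 1) :=
      Nat.count_monotone _ (by omega)
    have h3 : Nat.primeCounting Y = Nat.count Nat.Prime (Y + 1) := rfl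
    omega
  · intro h
    have h1 : pr r < Y + 1 := Nat.nth_lt_of_lt_count h
    omega

lemma ga_le {s T r : ℕ} (hr : r < T) : ga s T r ≤ pr (T - 1) ^ 3 := by
  have h1 : pr r ≤ pr (T - 1) := pr_strictMono.monotone (by omega)
  have h2 : pr (r - 1) ≤ pr (T - 1) := pr_strictMono.monotone (by omega)
  have h3 := (pr_prime (T - 1)).two_le
  unfold ga
  split_ifs
  · calc pr (r - 1) ^ 2 * pr r ≤ pr (T - 1) ^ 2 * pr (T - 1) :=
        Nat.mul_le_mul (Nat.pow_le_pow_left h2 2) h1
      _ = _ := by ring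
  · calc pr r ≤ pr (T - 1) := h1
      _ = pr (T - 1) ^ 1 := (pow_one _).symm
      _ ≤ pr (T - 1) ^ 3 := Nat.pow_le_pow_right (by omega) (by omega)

lemma two_le_of_mem_gen {s T R x : ℕ} (hx : x ∈ gen s T R) : 2 ≤ x := by
  rw [gen, mem_union, mem_image, mem_image] at hx
  rcases hx with ⟨r, _, rfl⟩ | ⟨j, _, rfl⟩
  · exact two_le_ga _ _ _
  · exact (pr_prime j).two_le

lemma le_of_mem_gen {s T Y x : ℕ} (hT : pr (T - 1) ^ 3 ≤ Y)
    (hx : x ∈ gen s T (Nat.primeCounting Y)) : x ≤ Y := by
  have h3 := (pr_prime (T - 1)).two_le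
  rw [gen, mem_union, mem_image, mem_image] at hx
  rcases hx with ⟨r, hr, rfl⟩ | ⟨j, hj, rfl⟩
  · by_cases hrT : r < T
    · exact (ga_le hrT).trans hT
    · have : ga s T r = pr r := if_neg fun h => hrT h.1
      rw [this]
      exact (pr_le_iff r Y).2 (mem_range.1 hr)
  · rw [ex, mem_filter, mem_range] at hj
    calc pr j ≤ pr (T - 1) := pr_strictMono.monotone (by omega)
      _ = pr (T - 1) ^ 1 := (pow_one _).symm
      _ ≤ pr (T - 1) ^ 3 := Nat.pow_le_pow_right (by omega) (by omega)
      _ ≤ Y := hT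

/-- The number of generators up to `M`. -/
lemma card_gen_le {s t M Y : ℕ} (hs : 1 ≤ s) (ht : 1 ≤ t)
    (hT : pr (t * (s + 1) - 1) ^ 3 ≤ M) (hMY : M ≤ Y) :
    Nat.primeCounting M + t ≤
      ((gen s (t * (s + 1)) (Nat.primeCounting Y)).filter (· ≤ M)).card := by
  classical
  set T := t * (s + 1) with hTdef
  have hT1 : 1 ≤ T := Nat.mul_pos ht (Nat.succ_pos s)
  have h3 := (pr_prime (T - 1)).two_le
  have hpT : pr (T - 1) ≤ M := by
    calc pr (T - 1) = pr (T - 1) ^ 1 := (pow_one _).symm
      _ ≤ pr (T - 1) ^ 3 := Nat.pow_le_pow_right (by omega) (by omega)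
      _ ≤ M := hT
  have hTM : T ≤ Nat.primeCounting M := by
    have := (pr_le_iff (T - 1) M).1 hpT
    omega
  have hMY' : Nat.primeCounting M ≤ Nat.primeCounting Y := Nat.monotone_primeCounting hMY
  have hsub : (range (Nat.primeCounting M)).image (ga s T) ∪ (ex s T).image pr ⊆
      (gen s T (Nat.primeCounting Y)).filter (· ≤ M) := by
    intro x hx
    rw [mem_union, mem_image, mem_image] at hx
    rw [mem_filter, gen, mem_union]
    rcases hx with ⟨r, hr, rfl⟩ | ⟨j, hj, rfl⟩
    · rw [mem_range] at hr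
      refine ⟨Or.inl (mem_image_of_mem _ (mem_range.2 (by omega))), ?_⟩
      by_cases hrT : r < T
      · exact (ga_le hrT).trans hT
      · have : ga s T r = pr r := if_neg fun h => hrT h.1
        rw [this]
        exact (pr_le_iff r M).2 hr
    · refine ⟨Or.inr (mem_image_of_mem _ hj), ?_⟩
      rw [ex, mem_filter, mem_range] at hj
      exact (pr_strictMono.monotone (by omega : j ≤ T - 1)).trans hpT
  have hdisj : Disjoint ((range (Nat.primeCounting M)).image (ga s T)) ((ex s T).image pr) := by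
    rw [disjoint_left]
    intro x hx hx'
    obtain ⟨r, _, rfl⟩ := mem_image.1 hx
    obtain ⟨j, hj, hj'⟩ := mem_image.1 hx'
    exact ga_ne_pr hs r hj hj'.symm
  calc Nat.primeCounting M + t ≤ Nat.primeCounting M + (ex s T).card :=
        Nat.add_le_add_left (card_ex s t) _
    _ = ((range (Nat.primeCounting M)).image (ga s T) ∪ (ex s T).image pr).card := by
        rw [card_union_of_disjoint hdisj, card_image_of_injective _ (ga_injective s T),
          card_image_of_injective _ (fun i j h => pr_inj.1 h), card_range]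
    _ ≤ _ := card_le_card hsub

lemma prod_nth {S : Finset ℕ} (K : ℕ → ℕ) :
    ∏ i ∈ range S.card, (Nat.nth (· ∈ S) i) ^ K (Nat.nth (· ∈ S) i) = ∏ x ∈ S, x ^ K x := by
  classical
  have hfin : {x | x ∈ S}.Finite := S.finite_toSet
  have hcard : hfin.toFinset.card = S.card := by
    congr 1
    ext x
    rw [Set.Finite.mem_toFinset]
    exact Iff.rfl
  have hinj : Set.InjOn (Nat.nth (· ∈ S)) (range S.card : Set ℕ) := by
    intro i hi j hj hij
    rw [mem_coe, mem_range] at hi hj
    exact (Nat.nth_strictMonoOn hfin).injOn (by simpa [hcard] using hi)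
      (by simpa [hcard] using hj) hij
  have himg : (range S.card).image (Nat.nth (· ∈ S)) = S := by
    apply eq_of_subset_of_card_le
    · intro x hx
      obtain ⟨i, hi, rfl⟩ := mem_image.1 hx
      exact Nat.nth_mem_of_lt_card hfin (by rw [hcard]; exact mem_range.1 hi)
    · rw [card_image_of_injOn hinj, card_range]
  conv_rhs => rw [← himg]
  rw [prod_image (fun i hi j hj h => hinj hi hj h)]

end Pool.Agent.H44E
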