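import Mathlib
import Pool.Agent.H44E.Count

set_option autoImplicit false

namespace Pool.Agent.H44E

open Finset N44b300f8

lemma beurlingInteger_single (a : ℕ → ℝ) (i : ℕ) :
    beurlingInteger a (Finsupp.single i 1) = a i := by
  simp [beurlingInteger]

lemma succ_le_of_sep {a : ℕ → ℝ} (hmono : StrictMono a) (hsep : Erdos951Prop a) (i : ℕ) :
    a i + 1 ≤ a (i + 1) := by
  have h1 : (Finsupp.single (i + 1) 1 : ℕ →₀ ℕ) ≠ Finsupp.single i 1 := by
    intro h
    rw [Finsupp.single_left_inj one_ne_zero] at h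
    omega
  have h2 := hsep _ _ h1
  rw [beurlingInteger_single, beurlingInteger_single] at h2
  have h3 := hmono (Nat.lt_succ_self i)
  rw [ge_iff_le, abs_of_pos (by linarith)] at h2
  linarith

lemma natCast_le_of_sep {a : ℕ → ℝ} (h0 : 1 < a 0) (hmono : StrictMono a)
    (hsep : Erdos951Prop a) (i : ℕ) : (i : ℝ) ≤ a i := by
  induction i with
  | zero => simp; linarith
  | succ i ih =>
    have := succ_le_of_sep hmono hsep i
    push_cast
    linarith

lemma finite_of_sep {a : ℕ → ℝ} (h0 : 1 < a 0) (hmono : StrictMono a)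
    (hsep : Erdos951Prop a) (x : ℝ) : {i | a i ≤ x}.Finite := by
  apply (Set.finite_Iic ⌊x⌋₊).subset
  intro i hi
  rw [Set.mem_Iic]
  exact Nat.le_floor ((natCast_le_of_sep h0 hmono hsep i).trans hi)

/-- The perturbed generator is at most one more than the integer. -/
lemma rpow_le_add_one {Y n : ℕ} (hY : 5 ≤ Y) (hlog : 4 * Real.log Y ≤ Y) (hn : 2 ≤ n)
    (hnY : n ≤ Y) {θ : ℝ} (hθ : θ ≤ sg Y) : (n : ℝ) ^ (1 + dl Y + θ) ≤ n + 1 := by
  have hYp : (0 : ℝ) < Y := by positivity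
  have hn0 : (0 : ℝ) < n := by positivity
  have hn1 : (1 : ℝ) ≤ n := by exact_mod_cast (by omega : 1 ≤ n)
  have hnY' : (n : ℝ) ≤ Y := by exact_mod_cast hnY
  have hY1 : (1 : ℝ) ≤ Y := by linarith
  have hsg : sg Y ≤ dl Y := by
    unfold sg dl
    apply one_div_le_one_div_of_le (by positivity)
    calc (Y : ℝ) ^ 2 ≤ (Y : ℝ) ^ 8 := pow_le_pow_right₀ hY1 (by norm_num)
      _ = 1 * (Y : ℝ) ^ 8 * 1 := by ring
      _ ≤ 2 * (Y : ℝ) ^ 8 * 2 ^ (Y ^ 6) := by
          gcongr
          · norm_num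
          · exact one_le_pow₀ (by norm_num)
  have hd := dl_pos hY
  have hlogn : Real.log n ≤ Real.log Y := Real.log_le_log hn0 hnY'
  have hlogn0 : 0 ≤ Real.log n := Real.log_nonneg hn1
  have h1 : (n : ℝ) ^ (1 + dl Y + θ) ≤ (n : ℝ) ^ (1 + 2 * dl Y) :=
    Real.rpow_le_rpow_of_exponent_le hn1 (by linarith)
  have h2 : (n : ℝ) ^ (1 + 2 * dl Y) = n * Real.exp (Real.log n * (2 * dl Y)) := by
    rw [Real.rpow_add hn0, Real.rpow_one, Real.rpow_def_of_pos hn0]
  have hsmall : Real.log n * (2 * dl Y) ≤ 1 / (2 * Y) := by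
    unfold dl
    rw [show Real.log n * (2 * (1 / (Y : ℝ) ^ 2)) = (4 * Real.log n) / (2 * (Y : ℝ) ^ 2) by ring,
      div_le_div_iff₀ (by positivity) (by positivity)]
    nlinarith
  have hexp : Real.exp (Real.log n * (2 * dl Y)) ≤ 1 + 1 / Y := by
    have h3 : |Real.log n * (2 * dl Y)| ≤ 1 := by
      rw [abs_of_nonneg (by positivity)]
      refine hsmall.trans ?_
      rw [div_le_one (by positivity)]
      linarith
    have h4 := Real.abs_exp_sub_one_le h3
    rw [abs_of_nonneg (by positivity : 0 ≤ Real.log n * (2 * dl Y))] at h4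
    have h5 := (abs_le.1 h4).2
    have h6 : 2 * (Real.log n * (2 * dl Y)) ≤ 1 / Y := by
      calc 2 * (Real.log n * (2 * dl Y)) ≤ 2 * (1 / (2 * Y)) := by linarith
        _ = 1 / Y := by field_simp
    linarith
  calc (n : ℝ) ^ (1 + dl Y + θ) ≤ n * Real.exp (Real.log n * (2 * dl Y)) := h1.trans h2.le
    _ ≤ n * (1 + 1 / Y) := by gcongr
    _ = n + n / Y := by ring
    _ ≤ n + 1 := by
        gcongr
        exact (div_le_one hYp).2 hnY'

/-- The construction, with explicit parameters. -/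
lemma core {Y s t X' : ℕ} (hY : 5 ≤ Y) (hlog : 4 * Real.log Y ≤ Y) (hs : Y ^ 6 < 2 ^ s)
    (ht : 1 ≤ t) (hT : pr (t * (s + 1) - 1) ^ 3 ≤ X') (hXY : X' ≤ Y) :
    ∃ a : ℕ → ℝ, 1 < a 0 ∧ StrictMono a ∧ Erdos951Prop a ∧
      ∀ M : ℕ, X' ≤ M → M ≤ Y → ∀ x : ℝ, (M : ℝ) + 1 ≤ x →
        Nat.primeCounting M + t ≤ {i | a i ≤ x}.ncard := by
  classical
  have hs1 : 1 ≤ s := by
    rcases Nat.eq_zero_or_pos s with h | h
    · subst h
      have : 1 ≤ Y ^ 6 := Nat.one_le_pow _ _ (by omega)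
      simp only [pow_zero] at hs
      omega
    · exact h
  set T := t * (s + 1) with hTdef
  have hT1 : 1 ≤ T := Nat.mul_pos ht (Nat.succ_pos s)
  set R := Nat.primeCounting Y with hR
  set S := gen s T R with hS
  have hpT : pr (T - 1) ≤ Y := by
    have h3 := (pr_prime (T - 1)).two_le
    calc pr (T - 1) = pr (T - 1) ^ 1 := (pow_one _).symm
      _ ≤ pr (T - 1) ^ 3 := Nat.pow_le_pow_right (by omega) (by omega)
      _ ≤ X' := hT
      _ ≤ Y := hXY
  have hTR : T ≤ R := by
    have := (pr_le_iff (T - 1) Y).1 hpT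
    omega
  have hfin : {x | x ∈ S}.Finite := S.finite_toSet
  have hcard : hfin.toFinset.card = S.card := by
    congr 1
    ext x
    rw [Set.Finite.mem_toFinset]
    exact Iff.rfl
  set m := S.card with hm
  set n : ℕ → ℕ := Nat.nth (· ∈ S) with hn
  have hmem : ∀ i < m, n i ∈ S := fun i hi =>
    Nat.nth_mem_of_lt_card hfin (by rw [hcard]; exact hi)
  have hcount : ∀ i < m, Nat.count (· ∈ S) (n i) = i := fun i hi =>
    Nat.count_nth_of_lt_card_finite hfin (by rw [hcard]; exact hi)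
  have hn2 : ∀ i < m, 2 ≤ n i := fun i hi => two_le_of_mem_gen (hmem i hi)
  have hnY : ∀ i < m, n i ≤ Y := fun i hi => le_of_mem_gen (hT.trans hXY) (hmem i hi)
  have hlt : ∀ i j, i < j → j < m → n i < n j := fun i j hij hj =>
    Nat.nth_lt_nth_of_lt_card hfin hij (by rw [hcard]; exact hj)
  have hmY : m ≤ Y := by
    have : S ⊆ Icc 1 Y := by
      intro x hx
      rw [mem_Icc]
      exact ⟨by have := two_le_of_mem_gen hx; omega, le_of_mem_gen (hT.trans hXY) hx⟩
    simpa using card_le_card this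
  have hm0 : 0 < m := by
    have : ga s T 0 ∈ S := by
      rw [hS, gen, mem_union]
      exact Or.inl (mem_image_of_mem _ (mem_range.2 (by omega)))
    exact card_pos.2 ⟨_, this⟩
  have hprod : ∀ k : ℕ → ℕ, ∏ i ∈ range m, n i ^ k i =
      ∏ x ∈ S, x ^ (k (Nat.count (· ∈ S) x)) := by
    intro k
    rw [← prod_nth (fun x => k (Nat.count (· ∈ S) x))]
    apply prod_congr rfl
    intro i hi
    rw [mem_range] at hi
    have := hcount i hi
    simp only [hn] at this ⊢
    rw [this]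
  have hNC : ∀ k l : ℕ → ℕ, (∃ i < m, k i ≠ l i) →
      ∏ i ∈ range m, n i ^ k i = ∏ i ∈ range m, n i ^ l i →
      2 ^ (Y ^ 6) < ∏ i ∈ range m, n i ^ k i := by
    rintro k l ⟨i, hi, hne⟩ heq
    rw [hprod k, hprod l] at heq
    rw [hprod k]
    have h1 := no_coincidence hs1 hTR (fun x => k (Nat.count (· ∈ S) x))
      (fun x => l (Nat.count (· ∈ S) x)) ⟨n i, hmem i hi, by
        simp only [hcount i hi]
        exact hne⟩ heq
    exact lt_of_lt_of_le (Nat.pow_lt_pow_right (by norm_num) hs) h1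
  obtain ⟨θ, hθ, hsep⟩ := perturb hY m hmY n hn2 hNC
  have hd := dl_pos hY
  have hb1 : ∀ i < m, 1 < (fun i => (n i : ℝ) ^ (1 + dl Y + θ i)) i := by
    intro i hi
    have h2 : (1 : ℝ) < n i := by
      have := hn2 i hi
      exact_mod_cast (by omega : 1 < n i)
    exact Real.one_lt_rpow h2 (by have := (hθ i).1; linarith)
  have hbmono : ∀ i, i + 1 < m → (fun i => (n i : ℝ) ^ (1 + dl Y + θ i)) i <
      (fun i => (n i : ℝ) ^ (1 + dl Y + θ i)) (i + 1) := by
    intro i hi
    have hsingle : ∀ (f : ℕ → ℕ) (j : ℕ), j < m →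
        ∏ x ∈ range m, f x ^ (if x = j then 1 else 0) = f j := by
      intro f j hj
      rw [prod_eq_single_of_mem j (mem_range.2 hj) (fun x _ hx => by rw [if_neg hx, pow_zero]),
        if_pos rfl, pow_one]
    have hsingle' : ∀ (f : ℕ → ℝ) (j : ℕ), j < m →
        ∏ x ∈ range m, f x ^ (if x = j then 1 else 0) = f j := by
      intro f j hj
      rw [prod_eq_single_of_mem j (mem_range.2 hj) (fun x _ hx => by rw [if_neg hx, pow_zero]),
        if_pos rfl, pow_one]
    have h1 := gap hY hn2 hθ (fun x => if x = i then 1 else 0) (fun x => if x = i + 1 then 1 else 0)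
      (by
        rw [hsingle n i (by omega), hsingle n (i + 1) hi]
        exact hlt i (i + 1) (by omega) hi)
      (by
        rw [hsingle n i (by omega)]
        calc n i ≤ Y := hnY i (by omega)
          _ = Y ^ 1 := (pow_one _).symm
          _ ≤ Y ^ 6 := Nat.pow_le_pow_right (by omega) (by omega)
          _ ≤ 2 ^ (Y ^ 6) := Nat.lt_two_pow_self.le)
    rw [hsingle' (fun i => (n i : ℝ) ^ (1 + dl Y + θ i)) i (by omega),
      hsingle' (fun i => (n i : ℝ) ^ (1 + dl Y + θ i)) (i + 1) hi] at h1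
    simp only at h1 ⊢
    linarith
  obtain ⟨a, ha, ha0, hamono, hasep⟩ := exists_infinite hm0 hsep hb1 hbmono
  refine ⟨a, ha0, hamono, hasep, ?_⟩
  intro M hXM hMY x hx
  have hcardM := card_gen_le (Y := Y) hs1 ht (hT.trans hXM) hMY
  refine hcardM.trans ?_
  have hfinx := finite_of_sep ha0 hamono hasep x
  rw [Set.ncard_eq_toFinset_card _ hfinx]
  apply card_le_card_of_injOn (fun y => Nat.count (· ∈ S) y)
  · intro y hy
    rw [mem_coe, mem_filter] at hy
    obtain ⟨hyS, hyM⟩ := hy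
    rw [mem_coe, Set.Finite.mem_toFinset]
    have hnth : n (Nat.count (· ∈ S) y) = y := Nat.nth_count hyS
    have hlt' : Nat.count (· ∈ S) y < m := by
      rw [← hcard]
      exact Nat.count_lt_card hfin hyS
    show a (Nat.count (· ∈ S) y) ≤ x
    rw [ha _ hlt']
    have h2 := rpow_le_add_one hY hlog (hn2 _ hlt') (hnY _ hlt')
      (hθ (Nat.count (· ∈ S) y)).2
    refine h2.trans ?_
    rw [hnth]
    have : (y : ℝ) ≤ M := by exact_mod_cast hyM
    linarith
  · intro y hy z hz hyz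
    rw [mem_coe, mem_filter] at hy hz
    have h1 : n (Nat.count (· ∈ S) y) = y := Nat.nth_count hy.1
    have h2 : n (Nat.count (· ∈ S) z) = z := Nat.nth_count hz.1
    simp only at hyz
    rw [← h1, ← h2, hyz]

end Pool.Agent.H44E
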