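import Mathlib
import Pool.Agent.H44E.Core

set_option autoImplicit false

namespace Pool.Agent.H44E

open Finset N44b300f8 Filter Asymptotics

/-- A weak lower bound for the number of primes. -/
lemma rpow_le_primeCounting {c : ℝ} (hc : c < 1) :
    ∀ᶠ q : ℕ in atTop, (q : ℝ) ^ c ≤ (Nat.primeCounting q : ℝ) := by
  have h1 : ∀ᶠ x : ℝ in atTop, Real.log x ≤ (1 / 4) * x ^ (1 - c) := by
    have := (isLittleO_log_rpow_atTop (sub_pos.2 hc)).bound (by norm_num : (0 : ℝ) < 1 / 4)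
    filter_upwards [this, eventually_ge_atTop 1] with x hx hx1
    have h2 : 0 ≤ x ^ (1 - c) := by positivity
    rw [Real.norm_of_nonneg (Real.log_nonneg hx1), Real.norm_of_nonneg h2] at hx
    exact hx
  have h2 : ∀ᶠ x : ℝ in atTop, Real.log x ≤ (1 / 8) * x := by
    have := (isLittleO_log_rpow_atTop (zero_lt_one' ℝ)).bound (by norm_num : (0 : ℝ) < 1 / 8)
    filter_upwards [this, eventually_ge_atTop 1] with x hx hx1
    rw [Real.rpow_one, Real.norm_of_nonneg (Real.log_nonneg hx1),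
      Real.norm_of_nonneg (by linarith)] at hx
    exact hx
  have h3 := (tendsto_natCast_atTop_atTop (R := ℝ)).eventually h1
  have h4 := ((tendsto_natCast_atTop_atTop (R := ℝ)).comp (tendsto_add_atTop_nat 1)).eventually h2
  filter_upwards [h3, h4, eventually_ge_atTop 2] with q hq1 hq2 hq
  simp only [Function.comp_apply] at hq2
  refine le_trans ?_ (Chebyshev.pi_ge q)
  have hq0 : (0 : ℝ) < q := by positivity
  have hq1' : (1 : ℝ) < q := by exact_mod_cast (by omega : 1 < q)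
  have hq2' : (2 : ℝ) ≤ q := by exact_mod_cast hq
  have hlog : 0 < Real.log q := Real.log_pos hq1'
  rw [le_div_iff₀ hlog]
  have h5 : (q : ℝ) ^ c * Real.log q ≤ (1 / 4) * q := by
    calc (q : ℝ) ^ c * Real.log q ≤ (q : ℝ) ^ c * ((1 / 4) * (q : ℝ) ^ (1 - c)) := by gcongr
      _ = (1 / 4) * ((q : ℝ) ^ c * (q : ℝ) ^ (1 - c)) := by ring
      _ = (1 / 4) * q := by
          rw [← Real.rpow_add hq0, show c + (1 - c) = 1 by ring, Real.rpow_one]
  have h6 : Real.log ((q : ℝ) + 1) ≤ (1 / 8) * (q + 1) := by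
    have : ((q + 1 : ℕ) : ℝ) = (q : ℝ) + 1 := by push_cast; ring
    rw [this] at hq2
    exact hq2
  have h7 := Real.log_two_gt_d9
  nlinarith

/-- The cube root is large enough to have many primes below it. -/
lemma many_primes {γ C : ℝ} (hγ0 : 0 ≤ γ) (hγ : γ < 1 / 3) (hC : 0 ≤ C) :
    ∀ᶠ X : ℝ in atTop, C * X ^ γ ≤ (Nat.primeCounting ⌊(X - 1) ^ (1 / 3 : ℝ)⌋₊ : ℝ) := by
  set c : ℝ := (3 * γ + 1) / 2 with hc
  have hc1 : c < 1 := by rw [hc]; linarith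
  have hc2 : 3 * γ < c := by rw [hc]; linarith
  have h1 := rpow_le_primeCounting hc1
  have h2 : ∀ᶠ x : ℝ in atTop, C * 9 ^ γ ≤ x ^ (c - 3 * γ) :=
    (tendsto_rpow_atTop (by linarith : 0 < c - 3 * γ)).eventually_ge_atTop _
  have h3 := (tendsto_natCast_atTop_atTop (R := ℝ)).eventually h2
  have h4 : Tendsto (fun X : ℝ => ⌊(X - 1) ^ (1 / 3 : ℝ)⌋₊) atTop atTop :=
    tendsto_nat_floor_atTop.comp ((tendsto_rpow_atTop (by norm_num : (0 : ℝ) < 1 / 3)).comp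
      (tendsto_atTop_add_const_right _ (-1) tendsto_id))
  filter_upwards [h4.eventually h1, h4.eventually h3, h4.eventually (eventually_ge_atTop 1),
    eventually_ge_atTop 2] with X hX1 hX2 hX3 hX
  set q := ⌊(X - 1) ^ (1 / 3 : ℝ)⌋₊ with hq
  have hq1 : (1 : ℝ) ≤ q := by exact_mod_cast hX3
  have hq0 : (0 : ℝ) < q := by linarith
  have hlt : (X - 1) ^ (1 / 3 : ℝ) < q + 1 := Nat.lt_floor_add_one _
  have hX9 : X ≤ 9 * (q : ℝ) ^ (3 : ℝ) := by
    have h5 : X - 1 < ((q : ℝ) + 1) ^ (3 : ℝ) := by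
      have h6 : ((X - 1) ^ (1 / 3 : ℝ)) ^ (3 : ℝ) < ((q : ℝ) + 1) ^ (3 : ℝ) :=
        Real.rpow_lt_rpow (Real.rpow_nonneg (by linarith) _) hlt (by norm_num)
      rwa [← Real.rpow_mul (by linarith), show (1 / 3 : ℝ) * 3 = 1 by norm_num,
        Real.rpow_one] at h6
    have h7 : ((q : ℝ) + 1) ^ (3 : ℝ) ≤ (2 * (q : ℝ)) ^ (3 : ℝ) :=
      Real.rpow_le_rpow (by positivity) (by linarith) (by norm_num)
    have h8 : (2 * (q : ℝ)) ^ (3 : ℝ) = 8 * (q : ℝ) ^ (3 : ℝ) := by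
      rw [Real.mul_rpow (by norm_num) hq0.le]
      norm_num
    have h9 : 1 ≤ (q : ℝ) ^ (3 : ℝ) := Real.one_le_rpow hq1 (by norm_num)
    have h10 : X - 1 < 8 * (q : ℝ) ^ (3 : ℝ) := by
      rw [← h8]
      exact h5.trans_le h7
    generalize (q : ℝ) ^ (3 : ℝ) = u at h9 h10 ⊢
    linarith
  calc C * X ^ γ ≤ C * (9 * (q : ℝ) ^ (3 : ℝ)) ^ γ := by gcongr
    _ = (C * 9 ^ γ) * (q : ℝ) ^ (3 * γ) := by
        rw [Real.mul_rpow (by norm_num) (by positivity), ← Real.rpow_mul hq0.le]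
        ring
    _ ≤ (q : ℝ) ^ (c - 3 * γ) * (q : ℝ) ^ (3 * γ) := by gcongr
    _ = (q : ℝ) ^ c := by rw [← Real.rpow_add hq0]; ring_nf
    _ ≤ _ := hX1

/-- The range of violation is long: main statement for positive `α`. -/
lemma main_pos {α β : ℝ} (hα : 0 < α) (hβ : 0 ≤ β) (h : α + β < 1 / 3) :
    ∀ᶠ X : ℝ in atTop, ∃ a : ℕ → ℝ, 1 < a 0 ∧ StrictMono a ∧ Erdos951Prop a ∧
      ∀ x : ℝ, X ≤ x → x ≤ Real.exp (X ^ α) →
        (Nat.primeCounting ⌊x⌋₊ : ℝ) + X ^ β ≤ ({i : ℕ | a i ≤ x}.ncard : ℝ) := by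
  have e1 : ∀ᶠ X : ℝ in atTop, Real.log X ≤ X ^ α := by
    have := (isLittleO_log_rpow_atTop hα).bound (zero_lt_one' ℝ)
    filter_upwards [this, eventually_ge_atTop 1] with x hx hx1
    have h2 : 0 ≤ x ^ α := by positivity
    rw [Real.norm_of_nonneg (Real.log_nonneg hx1), Real.norm_of_nonneg h2, one_mul] at hx
    exact hx
  have e2 : ∃ y₀ : ℝ, ∀ y ≥ y₀, 4 * Real.log y ≤ y := by
    have := (isLittleO_log_rpow_atTop (zero_lt_one' ℝ)).bound (by norm_num : (0 : ℝ) < 1 / 4)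
    have h2 : ∀ᶠ y : ℝ in atTop, 4 * Real.log y ≤ y := by
      filter_upwards [this, eventually_ge_atTop 1] with x hx hx1
      rw [Real.rpow_one, Real.norm_of_nonneg (Real.log_nonneg hx1),
        Real.norm_of_nonneg (by linarith)] at hx
      linarith
    exact eventually_atTop.1 h2
  obtain ⟨y₀, hy₀⟩ := e2
  have e3 := many_primes (γ := α + β) (C := 63) (by linarith) h (by norm_num)
  filter_upwards [e1, e3, eventually_ge_atTop (max y₀ 5)] with X hX1 hX3 hX4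
  have hXy : y₀ ≤ X := (le_max_left _ _).trans hX4
  have hX5 : 5 ≤ X := (le_max_right _ _).trans hX4
  have hX0 : 0 < X := by linarith
  set A : ℝ := X ^ α with hA
  set B : ℝ := X ^ β with hB
  have hA1 : 1 ≤ A := Real.one_le_rpow (by linarith) hα.le
  have hB1 : 1 ≤ B := Real.one_le_rpow (by linarith) hβ
  have hZX : X ≤ Real.exp A := by
    rw [← Real.log_le_iff_le_exp hX0]
    exact hX1
  set Y : ℕ := ⌈Real.exp A⌉₊ with hY
  have hYZ : Real.exp A ≤ Y := Nat.le_ceil _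
  have hYZ' : (Y : ℝ) ≤ 2 * Real.exp A := by
    have := Nat.ceil_lt_add_one (Real.exp_pos A).le
    linarith
  have hYX : X ≤ Y := hZX.trans hYZ
  have hY5 : 5 ≤ Y := by exact_mod_cast hX5.trans hYX
  have hlogY : 4 * Real.log Y ≤ Y := hy₀ _ (hXy.trans hYX)
  set s : ℕ := ⌈9 * A⌉₊ + 10 with hs
  set t : ℕ := ⌈B⌉₊ + 1 with ht
  have hsY : Y ^ 6 < 2 ^ s := by
    have h1 : ((Y ^ 6 : ℕ) : ℝ) < ((2 ^ s : ℕ) : ℝ) := by
      push_cast
      have h2 : 9 * A ≤ (⌈9 * A⌉₊ : ℝ) := Nat.le_ceil _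
      have h3 : (2 : ℝ) ^ s = 2 ^ (⌈9 * A⌉₊) * 1024 := by
        rw [hs, pow_add]; norm_num
      have h4 : Real.exp (6 * A) ≤ (2 : ℝ) ^ (⌈9 * A⌉₊) := by
        rw [← Real.rpow_natCast, Real.rpow_def_of_pos (by norm_num)]
        apply Real.exp_le_exp.2
        have h5 := Real.log_two_gt_d9
        have h6 : Real.log 2 * (9 * A) ≤ Real.log 2 * (⌈9 * A⌉₊ : ℝ) := by gcongr
        nlinarith
      calc (Y : ℝ) ^ 6 ≤ (2 * Real.exp A) ^ 6 := by gcongr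
        _ = 64 * Real.exp A ^ 6 := by ring
        _ = 64 * Real.exp (6 * A) := by rw [← Real.exp_nat_mul]; norm_num
        _ < 1024 * Real.exp (6 * A) := by
            have := Real.exp_pos (6 * A)
            linarith
        _ ≤ 1024 * (2 : ℝ) ^ (⌈9 * A⌉₊) := by gcongr
        _ = (2 : ℝ) ^ s := by rw [h3]; ring
    exact_mod_cast h1
  have ht1 : 1 ≤ t := by omega
  -- the number of small primes used
  have hTle : ((t * (s + 1) : ℕ) : ℝ) ≤ 63 * X ^ (α + β) := by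
    have h1 : (⌈B⌉₊ : ℝ) < B + 1 := Nat.ceil_lt_add_one (by linarith)
    have h2 : (⌈9 * A⌉₊ : ℝ) < 9 * A + 1 := Nat.ceil_lt_add_one (by linarith)
    have h3 : (t : ℝ) ≤ 3 * B := by
      rw [ht]; push_cast; linarith
    have h4 : ((s + 1 : ℕ) : ℝ) ≤ 21 * A := by
      rw [hs]; push_cast; linarith
    calc ((t * (s + 1) : ℕ) : ℝ) = (t : ℝ) * ((s + 1 : ℕ) : ℝ) := by push_cast; ring
      _ ≤ (3 * B) * (21 * A) := by gcongr
      _ = 63 * (A * B) := by ring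
      _ = 63 * X ^ (α + β) := by rw [hA, hB, ← Real.rpow_add hX0]
  set q : ℕ := ⌊(X - 1) ^ (1 / 3 : ℝ)⌋₊ with hq
  have hTq : t * (s + 1) ≤ Nat.primeCounting q := by
    exact_mod_cast hTle.trans hX3
  have hprq : pr (t * (s + 1) - 1) ≤ q := by
    rw [pr_le_iff]
    have : 1 ≤ t * (s + 1) := Nat.mul_pos ht1 (Nat.succ_pos s)
    omega
  have hq3 : q ^ 3 ≤ ⌊X - 1⌋₊ := by
    apply Nat.le_floor
    push_cast
    have h1 : (q : ℝ) ≤ (X - 1) ^ (1 / 3 : ℝ) := Nat.floor_le (by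
      apply Real.rpow_nonneg; linarith)
    calc (q : ℝ) ^ 3 ≤ ((X - 1) ^ (1 / 3 : ℝ)) ^ 3 := by gcongr
      _ = X - 1 := by
          rw [← Real.rpow_natCast, ← Real.rpow_mul (by linarith)]
          norm_num
  have hT : pr (t * (s + 1) - 1) ^ 3 ≤ ⌊X - 1⌋₊ := (Nat.pow_le_pow_left hprq 3).trans hq3
  have hXY : ⌊X - 1⌋₊ ≤ Y := by
    have h1 : ((⌊X - 1⌋₊ : ℕ) : ℝ) ≤ Y := (Nat.floor_le (by linarith)).trans (by linarith)
    exact_mod_cast h1
  obtain ⟨a, ha0, hamono, hasep, hcount⟩ := core hY5 hlogY hsY ht1 hT hXY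
  refine ⟨a, ha0, hamono, hasep, ?_⟩
  intro x hXx hxZ
  have hM1 : ⌊X - 1⌋₊ ≤ ⌊x - 1⌋₊ := Nat.floor_le_floor (by linarith)
  have hM2 : ⌊x - 1⌋₊ ≤ Y := by
    have h1 : ((⌊x - 1⌋₊ : ℕ) : ℝ) ≤ Y := (Nat.floor_le (by linarith)).trans (by linarith)
    exact_mod_cast h1
  have hM3 : ((⌊x - 1⌋₊ : ℕ) : ℝ) + 1 ≤ x := by
    have := Nat.floor_le (show 0 ≤ x - 1 by linarith)
    linarith
  have h1 := hcount _ hM1 hM2 x hM3
  have h2 : Nat.primeCounting ⌊x⌋₊ ≤ Nat.primeCounting ⌊x - 1⌋₊ + 1 := by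
    have h3 : ⌊x⌋₊ = ⌊x - 1⌋₊ + 1 := by
      rw [← Nat.floor_add_one (by linarith), sub_add_cancel]
    rw [h3]
    unfold Nat.primeCounting Nat.primeCounting'
    rw [Nat.count_succ]
    split_ifs <;> omega
  have h3 : (Nat.primeCounting ⌊x⌋₊ : ℝ) ≤ Nat.primeCounting ⌊x - 1⌋₊ + 1 := by exact_mod_cast h2
  have h4 : (Nat.primeCounting ⌊x - 1⌋₊ : ℝ) + t ≤ ({i : ℕ | a i ≤ x}.ncard : ℝ) := by
    exact_mod_cast h1
  have h5 : B ≤ (⌈B⌉₊ : ℝ) := Nat.le_ceil _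
  have h6 : (t : ℝ) = (⌈B⌉₊ : ℝ) + 1 := by rw [ht]; push_cast; ring
  linarith

end Pool.Agent.H44E
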