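import Pool.Agent.H44E.Stage
import Pool.Prelude.Def_F_f983ba18

set_option autoImplicit false

namespace Pool.Agent.H44E

open Finset MeasureTheory N44b300f8

/-- The first `m` values of `a` are multiplicatively `1`-separated. -/
def SepOn (a : ℕ → ℝ) (m : ℕ) : Prop :=
  ∀ k l : ℕ → ℕ, (∃ i < m, k i ≠ l i) →
    1 ≤ |∏ i ∈ range m, a i ^ k i - ∏ i ∈ range m, a i ^ l i|

lemma SepOn.two_le {a : ℕ → ℝ} {m : ℕ} (h : SepOn a m) (h1 : ∀ i < m, 1 < a i) :
    ∀ i < m, 2 ≤ a i := by
  intro i hi
  have h2 := h (fun j => if j = i then 1 else 0) (fun _ => 0) ⟨i, hi, by simp⟩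
  have h3 : ∏ j ∈ range m, a j ^ (if j = i then 1 else 0) = a i := by
    rw [Finset.prod_eq_single i]
    · simp
    · intro j _ hj
      simp [hj]
    · intro hn
      exact absurd (mem_range.2 hi) hn
  rw [h3] at h2
  simp only [pow_zero, prod_const_one] at h2
  rw [abs_of_pos (by linarith [h1 i hi])] at h2
  linarith

lemma SepOn.congr {a a' : ℕ → ℝ} {m : ℕ} (h : SepOn a m) (h1 : ∀ i < m, a i = a' i) :
    SepOn a' m := by
  intro k l hkl
  have e : ∀ k : ℕ → ℕ, ∏ i ∈ range m, a' i ^ k i = ∏ i ∈ range m, a i ^ k i := fun k =>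
    prod_congr rfl fun i hi => by rw [h1 i (mem_range.1 hi)]
  rw [e, e]
  exact h k l hkl

/-- Adding one more generator. -/
lemma sepOn_succ {a : ℕ → ℝ} {m : ℕ} (h : SepOn a m) (h1 : ∀ i < m, 2 ≤ a i) (hm : 1 ≤ a m)
    (h2 : ∀ k l : ℕ → ℕ, k m ≠ l m →
      1 ≤ |a m ^ k m * ∏ i ∈ range m, a i ^ k i - a m ^ l m * ∏ i ∈ range m, a i ^ l i|) :
    SepOn a (m + 1) := by
  intro k l hkl
  rw [prod_range_succ, prod_range_succ, mul_comm _ (a m ^ k m), mul_comm _ (a m ^ l m)]
  by_cases hk : k m = l m
  · obtain ⟨i, hi, hne⟩ := hkl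
    have hi' : i < m := by
      rcases Nat.lt_succ_iff_lt_or_eq.1 hi with h | h
      · exact h
      · subst h
        exact absurd hk hne
    rw [hk, ← mul_sub, abs_mul]
    have h3 := h k l ⟨i, hi', hne⟩
    have h4 : 1 ≤ |a m ^ l m| := by
      rw [abs_of_pos (by positivity)]
      exact one_le_pow₀ hm
    nlinarith [abs_nonneg (∏ i ∈ range m, a i ^ k i - ∏ i ∈ range m, a i ^ l i)]
  · exact h2 k l hk

/-- A finite separated family can be extended by an arbitrarily large new generator. -/
lemma exists_extension {a : ℕ → ℝ} {m : ℕ} (h : SepOn a m) (h1 : ∀ i < m, 1 < a i) (G : ℝ) :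
    ∃ g : ℝ, G < g ∧ 1 < g ∧ SepOn (Function.update a m g) (m + 1) := by
  classical
  have h2 := h.two_le h1
  -- choose the threshold
  have hex : ∀ᶠ J : ℕ in Filter.atTop, 64 * ((J : ℝ) + 1) ^ (2 * (m + 1)) ≤ 1 * 2 ^ J := by
    have ht : Filter.Tendsto (fun J : ℕ => (J : ℝ) ^ (2 * (m + 1)) / (2 : ℝ) ^ J)
        Filter.atTop (nhds 0) :=
      tendsto_pow_const_div_const_pow_of_one_lt _ (by norm_num)
    have ht' := (Filter.tendsto_add_atTop_iff_nat 1).2 ht
    have hev := ht'.eventually (gt_mem_nhds (show (0 : ℝ) < 1 / 128 by norm_num))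
    filter_upwards [hev] with J hJ
    have hp : (0 : ℝ) < 2 ^ (J + 1) := by positivity
    rw [div_lt_iff₀ hp] at hJ
    push_cast at hJ
    rw [pow_succ] at hJ
    linarith
  obtain ⟨J₀, hJ₀, hJ₁⟩ := (hex.and (Filter.eventually_ge_atTop (3 * (2 * (m + 1))))).exists
  set p : ℝ := max (Real.log (|G| + 1)) (J₀ * Real.log 2) + Real.log 2 with hp
  have hl2 : 0 < Real.log 2 := Real.log_pos (by norm_num)
  have hge : ∀ u ∈ Set.Icc p (p + 1), (|G| + 1) * 2 ≤ Real.exp (0 + 1 * u) ∧
      (2 : ℝ) ^ J₀ * 2 ≤ Real.exp (0 + 1 * u) := by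
    intro u hu
    rw [zero_add, one_mul]
    constructor
    · rw [← Real.log_le_iff_le_exp (by positivity), Real.log_mul (by positivity) (by norm_num)]
      have := le_max_left (Real.log (|G| + 1)) (J₀ * Real.log 2)
      linarith [hu.1]
    · rw [← Real.log_le_iff_le_exp (by positivity), Real.log_mul (by positivity) (by norm_num),
        Real.log_pow]
      have := le_max_right (Real.log (|G| + 1)) (J₀ * Real.log 2)
      linarith [hu.1]
  obtain ⟨u, hu, hsep⟩ := stage (b := a) h2 (c := 0) (w := 1) (p := p) (h := 1) (by norm_num)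
    one_pos (fun u hu => by
      have := (hge u hu).1
      have := abs_nonneg G
      linarith) hJ₀ (by omega)
  obtain ⟨hu1, hu2⟩ := hge u hu
  set g : ℝ := Real.exp (0 + 1 * u) with hgdef
  have hG := le_abs_self G
  have hG0 := abs_nonneg G
  have hg1 : 1 ≤ g := by linarith
  refine ⟨g, by linarith, by linarith, ?_⟩
  have hup : ∀ i < m, Function.update a m g i = a i := fun i hi => by
    rw [Function.update_of_ne (by omega)]
  have hupm : Function.update a m g m = g := Function.update_self _ _ _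
  refine sepOn_succ (h.congr fun i hi => (hup i hi).symm) (fun i hi => by rw [hup i hi]; exact h2 i hi)
    (by rw [hupm]; exact hg1) ?_
  intro k l hkl
  have e : ∀ k : ℕ → ℕ, ∏ i ∈ range m, Function.update a m g i ^ k i = ∏ i ∈ range m, a i ^ k i :=
    fun k => prod_congr rfl fun i hi => by rw [hup i (mem_range.1 hi)]
  rw [e, e, hupm]
  refine hsep (k m) (l m) k l hkl ?_
  have hone : ∀ k : ℕ → ℕ, 1 ≤ ∏ i ∈ range m, a i ^ k i := fun k =>
    one_le_prod_real fun i hi => one_le_pow₀ (by linarith [h2 i (mem_range.1 hi)])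
  have hbig : ∀ k : ℕ → ℕ, k m ≠ 0 → (2 : ℝ) ^ J₀ ≤ g ^ k m * ∏ i ∈ range m, a i ^ k i := by
    intro k hk
    have h3 : g ≤ g ^ k m := le_self_pow₀ hg1 hk
    have h4 := hone k
    have h5 : (0 : ℝ) < 2 ^ J₀ := by positivity
    nlinarith
  by_cases hk : k m = 0
  · have hl : l m ≠ 0 := by omega
    exact (hbig l hl).trans (le_max_right _ _)
  · exact (hbig k hk).trans (le_max_left _ _)

/-- Every finite separated increasing family extends to an infinite separated sequence. -/
lemma exists_infinite {a : ℕ → ℝ} {m : ℕ} (hm : 0 < m) (h : SepOn a m) (h1 : ∀ i < m, 1 < a i)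
    (hmono : ∀ i, i + 1 < m → a i < a (i + 1)) :
    ∃ b : ℕ → ℝ, (∀ i < m, b i = a i) ∧ 1 < b 0 ∧ StrictMono b ∧ Erdos951Prop b := by
  classical
  -- states: sequences which are good on the first `m + j` indices
  let Good : ℕ → (ℕ → ℝ) → Prop := fun j f =>
    SepOn f (m + j) ∧ (∀ i < m + j, 1 < f i) ∧ (∀ i, i + 1 < m + j → f i < f (i + 1))
  have hstep : ∀ j (f : {f : ℕ → ℝ // Good j f}), ∃ f' : {f : ℕ → ℝ // Good (j + 1) f},
      ∀ i < m + j, f'.1 i = f.1 i := by
    rintro j ⟨f, hf1, hf2, hf3⟩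
    obtain ⟨g, hg1, hg2, hg3⟩ := exists_extension hf1 hf2 (f (m + j - 1))
    have hup : ∀ i < m + j, Function.update f (m + j) g i = f i := fun i hi => by
      rw [Function.update_of_ne (by omega)]
    have hupm : Function.update f (m + j) g (m + j) = g := Function.update_self _ _ _
    refine ⟨⟨Function.update f (m + j) g, hg3, ?_, ?_⟩, hup⟩
    · intro i hi
      rcases Nat.lt_succ_iff_lt_or_eq.1 (show i < (m + j).succ from hi) with h | h
      · rw [hup i h]
        exact hf2 i h
      · rw [h, hupm]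
        exact hg2
    · intro i hi
      by_cases h : i + 1 < m + j
      · rw [hup i (by omega), hup (i + 1) h]
        exact hf3 i h
      · have h' : i + 1 = m + j := by omega
        rw [h', hupm, hup i (by omega)]
        have : i = m + j - 1 := by omega
        rw [this]
        exact hg1
  choose F hF using hstep
  let A : (j : ℕ) → {f : ℕ → ℝ // Good j f} := fun j =>
    Nat.rec (motive := fun j => {f : ℕ → ℝ // Good j f}) ⟨a, h, h1, hmono⟩ (fun j f => F j f) j
  have hA : ∀ j, A (j + 1) = F j (A j) := fun j => rfl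
  have hstab : ∀ j j' i, j ≤ j' → i < m + j → (A j').1 i = (A j).1 i := by
    intro j j' i hj
    induction hj with
    | refl => intro _; rfl
    | step hle ih =>
      intro hi
      rw [← ih hi]
      exact hF _ _ i (by have : j ≤ _ := hle; omega)
  let b : ℕ → ℝ := fun i => (A (i + 1)).1 i
  have hb : ∀ j i, i < m + j → b i = (A j).1 i := by
    intro j i hi
    rcases le_total j (i + 1) with hle | hle
    · exact hstab j (i + 1) i hle hi
    · exact (hstab (i + 1) j i hle (by omega)).symm
  refine ⟨b, fun i hi => hb 0 i (by omega), ?_, ?_, ?_⟩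
  · rw [hb 0 0 (by omega)]
    exact h1 0 hm
  · refine strictMono_nat_of_lt_succ fun i => ?_
    rw [hb (i + 2) i (by omega), hb (i + 2) (i + 1) (by omega)]
    exact (A (i + 2)).2.2.2 i (by omega)
  · intro k l hkl
    obtain ⟨N, hN⟩ : ∃ N, k.support ∪ l.support ⊆ range N := by
      obtain ⟨N, hN⟩ := (k.support ∪ l.support).exists_nat_subset_range
      exact ⟨N, hN⟩
    have hsep : SepOn b (m + N) := by
      refine SepOn.congr (A N).2.1 fun i hi => ?_
      rw [hb N i hi]
    have e : ∀ k' : ℕ →₀ ℕ, k'.support ⊆ k.support ∪ l.support →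
        beurlingInteger b k' = ∏ i ∈ range (m + N), b i ^ k' i := by
      intro k' hk'
      rw [beurlingInteger, Finsupp.prod_of_support_subset k' _ _ (fun i _ => pow_zero _)]
      intro i hi
      have := hN (hk' hi)
      rw [mem_range] at this ⊢
      omega
    rw [e k subset_union_left, e l subset_union_right]
    obtain ⟨i, hi⟩ : ∃ i, k i ≠ l i := by
      by_contra hcon
      push Not at hcon
      exact hkl (Finsupp.ext hcon)
    have hi' : i < m + N := by
      have : i ∈ k.support ∪ l.support := by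
        rw [mem_union, Finsupp.mem_support_iff, Finsupp.mem_support_iff]
        by_contra hcon
        push Not at hcon
        exact hi (hcon.1.trans hcon.2.symm)
      have := mem_range.1 (hN this)
      omega
    exact hsep k l ⟨i, hi', hi⟩

end Pool.Agent.H44E
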