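import Mathlib

set_option autoImplicit false

namespace Pool.Agent.H44E

open Finset MeasureTheory

/-- The set where an affine function of slope `a` is small has small measure. -/
lemma volume_affine_le (A a ε : ℝ) (ha : a ≠ 0) :
    volume {u : ℝ | |A + a * u| < ε} ≤ ENNReal.ofReal (2 * (ε / |a|)) := by
  have hsub : {u : ℝ | |A + a * u| < ε} ⊆ Metric.ball (-A / a) (ε / |a|) := by
    intro u hu
    rw [Set.mem_ofPred_eq] at hu
    rw [Metric.mem_ball, Real.dist_eq, lt_div_iff₀ (abs_pos.2 ha), ← abs_mul]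
    have h : (u - -A / a) * a = A + a * u := by field_simp; ring
    rw [h]
    exact hu
  calc volume {u : ℝ | |A + a * u| < ε} ≤ volume (Metric.ball (-A / a) (ε / |a|)) :=
        measure_mono hsub
    _ = ENNReal.ofReal (2 * (ε / |a|)) := Real.volume_ball _ _

/-- Logarithms of two numbers at distance less than one. -/
lemma abs_log_sub_log_lt {x y M : ℝ} (hx : 0 < x) (hy : 0 < y) (hM : 2 ≤ M)
    (hmax : M ≤ max x y) (h : |x - y| < 1) : |Real.log x - Real.log y| < 2 / M := by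
  have key : ∀ x y : ℝ, 0 < x → 0 < y → x ≤ y → M ≤ y → |x - y| < 1 →
      |Real.log x - Real.log y| < 2 / M := by
    intro x y hx hy hxy hM' h
    have h1 : y - x < 1 := by
      rw [abs_sub_comm] at h
      exact lt_of_le_of_lt (le_abs_self _) h
    have h2 : M / 2 < x := by linarith
    rw [abs_sub_comm, abs_of_nonneg (sub_nonneg.2 (Real.log_le_log hx hxy)),
      ← Real.log_div hy.ne' hx.ne']
    have h3 : Real.log (y / x) ≤ y / x - 1 := Real.log_le_sub_one_of_pos (div_pos hy hx)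
    have h4 : y / x - 1 = (y - x) / x := by field_simp
    have h5 : (y - x) / x < 2 / M := by
      rw [div_lt_div_iff₀ hx (by linarith)]
      nlinarith [sub_nonneg.2 hxy]
    linarith
  rcases le_total x y with hxy | hxy
  · rw [max_eq_right hxy] at hmax
    exact key x y hx hy hxy hmax h
  · rw [max_eq_left hxy] at hmax
    rw [abs_sub_comm] at h ⊢
    exact key y x hy hx hxy hmax h

/-- Growth condition: the base case propagates with ratio `3 / 2`. -/
lemma growth {D J₀ : ℕ} {h : ℝ} (H1 : 64 * ((J₀ : ℝ) + 1) ^ D ≤ h * 2 ^ J₀)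
    (H2 : 3 * D ≤ J₀ + 1) (_hh : 0 < h) (i : ℕ) :
    64 * ((J₀ : ℝ) + i + 1) ^ D ≤ h * 2 ^ J₀ * (3 / 2) ^ i := by
  induction i with
  | zero => simpa using H1
  | succ i ih =>
    have hpos : (0 : ℝ) < (J₀ : ℝ) + i + 1 := by positivity
    have h1 : ((J₀ : ℝ) + (i + 1 : ℕ) + 1) ^ D ≤ ((J₀ : ℝ) + i + 1) ^ D * (3 / 2) := by
      have h2 : ((J₀ : ℝ) + (i + 1 : ℕ) + 1) = ((J₀ : ℝ) + i + 1) * (1 + 1 / ((J₀ : ℝ) + i + 1)) := by
        push_cast
        field_simp
        ring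
      rw [h2, mul_pow]
      apply mul_le_mul_of_nonneg_left _ (by positivity)
      have h3 : 1 + 1 / ((J₀ : ℝ) + i + 1) ≤ Real.exp (1 / ((J₀ : ℝ) + i + 1)) := by
        rw [add_comm]
        exact Real.add_one_le_exp _
      have h4 : (1 + 1 / ((J₀ : ℝ) + i + 1)) ^ D ≤ Real.exp (1 / ((J₀ : ℝ) + i + 1)) ^ D := by
        gcongr
      refine h4.trans ?_
      rw [← Real.exp_nat_mul]
      have h5 : (D : ℝ) * (1 / ((J₀ : ℝ) + i + 1)) ≤ 1 / 3 := by
        rw [mul_one_div, div_le_div_iff₀ hpos (by norm_num)]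
        have : (3 : ℝ) * D ≤ J₀ + 1 := by exact_mod_cast H2
        have hi : (0 : ℝ) ≤ i := Nat.cast_nonneg i
        linarith
      refine (Real.exp_le_exp.2 h5).trans ?_
      have h6 : Real.exp (1 / 3) ^ 3 ≤ (3 / 2 : ℝ) ^ 3 := by
        rw [← Real.exp_nat_mul]
        norm_num
        have := Real.exp_one_lt_d9
        linarith
      exact le_of_pow_le_pow_left₀ (by norm_num) (by norm_num) h6
    calc 64 * ((J₀ : ℝ) + (i + 1 : ℕ) + 1) ^ D ≤ 64 * (((J₀ : ℝ) + i + 1) ^ D * (3 / 2)) := by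
          gcongr
      _ = (64 * ((J₀ : ℝ) + i + 1) ^ D) * (3 / 2) := by ring
      _ ≤ (h * 2 ^ J₀ * (3 / 2) ^ i) * (3 / 2) := by gcongr
      _ = h * 2 ^ J₀ * (3 / 2) ^ (i + 1) := by ring

lemma one_le_prod_real {ι : Type*} {s : Finset ι} {f : ι → ℝ} (h : ∀ i ∈ s, 1 ≤ f i) :
    1 ≤ ∏ i ∈ s, f i := by
  classical
  induction s using Finset.induction_on with
  | empty => simp
  | insert a s ha ih =>
    rw [prod_insert ha]
    have h1 := h a (mem_insert_self a s)
    have h2 := ih (fun i hi => h i (mem_insert_of_mem hi))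
    nlinarith

lemma single_le_prod_real {ι : Type*} {s : Finset ι} {f : ι → ℝ} (h : ∀ i ∈ s, 1 ≤ f i)
    {i : ι} (hi : i ∈ s) : f i ≤ ∏ i ∈ s, f i := by
  classical
  rw [← mul_prod_erase s f hi]
  have h1 := one_le_prod_real (s := s.erase i) (f := f) (fun j hj => h j (mem_of_mem_erase hj))
  have h2 := h i hi
  nlinarith

/-- If every base is at least two, exponents are bounded by the binary logarithm. -/
lemma exp_le_of_prod_lt {m J : ℕ} {b : ℕ → ℝ} (hb : ∀ i < m, 2 ≤ b i) {g : ℝ} (hg : 2 ≤ g)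
    (e : ℕ) (k : ℕ → ℕ) (h : g ^ e * ∏ i ∈ range m, b i ^ k i < 2 ^ (J + 1)) :
    e < J + 1 ∧ ∀ i < m, k i < J + 1 := by
  have hone : ∀ i ∈ range m, 1 ≤ b i ^ k i :=
    fun i hi => one_le_pow₀ (by linarith [hb i (mem_range.1 hi)])
  have hprod1 : 1 ≤ ∏ i ∈ range m, b i ^ k i := one_le_prod_real hone
  have hge : 1 ≤ g ^ e := one_le_pow₀ (by linarith)
  constructor
  · have h1 : (2 : ℝ) ^ e ≤ g ^ e := pow_le_pow_left₀ (by norm_num) hg e
    have h2 : g ^ e ≤ g ^ e * ∏ i ∈ range m, b i ^ k i := le_mul_of_one_le_right (by linarith) hprod1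
    exact (pow_lt_pow_iff_right₀ (by norm_num : (1 : ℝ) < 2)).1 (by linarith)
  · intro i hi
    have h1 : (2 : ℝ) ^ k i ≤ b i ^ k i := pow_le_pow_left₀ (by norm_num) (hb i hi) _
    have h2 : b i ^ k i ≤ ∏ i ∈ range m, b i ^ k i := single_le_prod_real hone (mem_range.2 hi)
    have h3 : ∏ i ∈ range m, b i ^ k i ≤ g ^ e * ∏ i ∈ range m, b i ^ k i :=
      le_mul_of_one_le_left (by linarith) hge
    exact (pow_lt_pow_iff_right₀ (by norm_num : (1 : ℝ) < 2)).1 (by linarith)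

/-- Stage lemma: a good value of the parameter of one new generator. -/
lemma stage {m : ℕ} {b : ℕ → ℝ} (hb : ∀ i < m, 2 ≤ b i) {c w p h : ℝ} (hw : 1 / 2 ≤ w)
    (hh : 0 < h) (hg : ∀ u ∈ Set.Icc p (p + h), 2 ≤ Real.exp (c + w * u)) {J₀ : ℕ}
    (H1 : 64 * ((J₀ : ℝ) + 1) ^ (2 * (m + 1)) ≤ h * 2 ^ J₀) (H2 : 3 * (2 * (m + 1)) ≤ J₀ + 1) :
    ∃ u ∈ Set.Icc p (p + h), ∀ (e e' : ℕ) (k l : ℕ → ℕ), e ≠ e' →
      (2 : ℝ) ^ J₀ ≤ max (Real.exp (c + w * u) ^ e * ∏ i ∈ range m, b i ^ k i)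
        (Real.exp (c + w * u) ^ e' * ∏ i ∈ range m, b i ^ l i) →
      1 ≤ |Real.exp (c + w * u) ^ e * ∏ i ∈ range m, b i ^ k i -
        Real.exp (c + w * u) ^ e' * ∏ i ∈ range m, b i ^ l i| := by
  classical
  by_contra hcon
  push Not at hcon
  -- index types
  let T : ℕ → Type := fun J => (Fin (J + 1) × Fin (J + 1)) × ((Fin m → Fin (J + 1)) × (Fin m → Fin (J + 1)))
  let P : (Fin m → ℕ) → ℝ := fun k => ∑ i : Fin m, (k i : ℝ) * Real.log (b i)
  let S : (J : ℕ) → T J → Set ℝ := fun J q =>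
    if (q.1.1 : ℕ) = (q.1.2 : ℕ) then ∅ else
    {u | |((((q.1.1 : ℕ) : ℝ) - ((q.1.2 : ℕ) : ℝ)) * c + (P (fun i => (q.2.1 i : ℕ)) - P (fun i => (q.2.2 i : ℕ)))) +
      ((((q.1.1 : ℕ) : ℝ) - ((q.1.2 : ℕ) : ℝ)) * w) * u| < 2 / 2 ^ J}
  have hS : ∀ (J : ℕ) (q : T J), volume (S J q) ≤ ENNReal.ofReal (8 / 2 ^ J) := by
    intro J q
    simp only [S]
    split_ifs with hq
    · simp
    · have hd : (1 : ℝ) ≤ |((q.1.1 : ℕ) : ℝ) - ((q.1.2 : ℕ) : ℝ)| := by
        have h1 : (1 : ℤ) ≤ |((q.1.1 : ℕ) : ℤ) - ((q.1.2 : ℕ) : ℤ)| :=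
          Int.one_le_abs (by omega)
        exact_mod_cast h1
      have ha : 1 / 2 ≤ |(((q.1.1 : ℕ) : ℝ) - ((q.1.2 : ℕ) : ℝ)) * w| := by
        rw [abs_mul, abs_of_pos (by linarith : 0 < w)]
        nlinarith
      refine (volume_affine_le _ _ _ (by
        intro h0
        rw [h0, abs_zero] at ha
        linarith)).trans (ENNReal.ofReal_le_ofReal ?_)
      have hJ : (0 : ℝ) < 2 ^ J := by positivity
      have h2 : 2 / 2 ^ J / |(((q.1.1 : ℕ) : ℝ) - ((q.1.2 : ℕ) : ℝ)) * w| ≤ 4 / 2 ^ J := by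
        rw [div_div, div_le_div_iff₀ (by positivity) hJ]
        nlinarith
      calc 2 * (2 / 2 ^ J / |(((q.1.1 : ℕ) : ℝ) - ((q.1.2 : ℕ) : ℝ)) * w|) ≤ 2 * (4 / 2 ^ J) := by
            linarith
        _ = 8 / 2 ^ J := by ring
  have hlog : ∀ (u : ℝ) (e : ℕ) (k : ℕ → ℕ),
      Real.log (Real.exp (c + w * u) ^ e * ∏ i ∈ range m, b i ^ k i) =
        (e : ℝ) * (c + w * u) + P (fun i => k i) := by
    intro u e k
    have h0 : ∀ i ∈ range m, b i ^ k i ≠ 0 := fun i hi =>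
      pow_ne_zero _ (by linarith [hb i (mem_range.1 hi)])
    rw [Real.log_mul (pow_ne_zero _ (Real.exp_pos _).ne') (prod_ne_zero_iff.2 h0), Real.log_pow,
      Real.log_exp, Real.log_prod h0, Finset.sum_range]
    simp [P, Real.log_pow]
  have hcover : Set.Icc p (p + h) ⊆ ⋃ i : ℕ, ⋃ q : T (J₀ + i), S (J₀ + i) q := by
    intro u hu
    obtain ⟨e, e', k, l, hee, hmax, hlt⟩ := hcon u hu
    have hgu := hg u hu
    have hpos : ∀ (e : ℕ) (k : ℕ → ℕ), 0 < Real.exp (c + w * u) ^ e * ∏ i ∈ range m, b i ^ k i := by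
      intro e k
      refine mul_pos (by positivity) (prod_pos fun i hi => pow_pos (by linarith [hb i (mem_range.1 hi)]) _)
    have h1 : (1 : ℝ) ≤ max (Real.exp (c + w * u) ^ e * ∏ i ∈ range m, b i ^ k i)
        (Real.exp (c + w * u) ^ e' * ∏ i ∈ range m, b i ^ l i) :=
      (one_le_pow₀ (by norm_num)).trans hmax
    obtain ⟨J, hJ1, hJ2⟩ := exists_nat_pow_near h1 (by norm_num : (1 : ℝ) < 2)
    have hJ : J₀ < J + 1 :=
      (pow_lt_pow_iff_right₀ (by norm_num : (1 : ℝ) < 2)).1 (lt_of_le_of_lt hmax hJ2)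
    obtain ⟨i, rfl⟩ : ∃ i, J = J₀ + i := ⟨J - J₀, by omega⟩
    obtain ⟨he, hk⟩ := exp_le_of_prod_lt hb hgu e k (lt_of_le_of_lt (le_max_left _ _) hJ2)
    obtain ⟨he', hl⟩ := exp_le_of_prod_lt hb hgu e' l (lt_of_le_of_lt (le_max_right _ _) hJ2)
    refine Set.mem_iUnion.2 ⟨i, Set.mem_iUnion.2 ⟨((⟨e, he⟩, ⟨e', he'⟩),
      ((fun j => ⟨k j, hk j j.2⟩), (fun j => ⟨l j, hl j j.2⟩))), ?_⟩⟩
    simp only [S]
    rw [if_neg hee, Set.mem_ofPred_eq]
    have h2 : (2 : ℝ) ≤ 2 ^ (J₀ + i) := by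
      calc (2 : ℝ) = 2 ^ 1 := by norm_num
        _ ≤ 2 ^ (J₀ + i) := pow_le_pow_right₀ (by norm_num) (by omega)
    have h3 := abs_log_sub_log_lt (hpos e k) (hpos e' l) h2 hJ1 hlt
    rw [hlog, hlog] at h3
    refine lt_of_eq_of_lt ?_ h3
    congr 1
    ring
  have hcard : ∀ J : ℕ, Fintype.card (T J) = (J + 1) ^ (2 * (m + 1)) := by
    intro J
    simp only [T, Fintype.card_prod, Fintype.card_fin, Fintype.card_fun]
    ring
  have hbound : ENNReal.ofReal h ≤ ENNReal.ofReal (h / 2) := by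
    calc ENNReal.ofReal h = volume (Set.Icc p (p + h)) := by
          rw [Real.volume_Icc]
          congr 1
          ring
      _ ≤ volume (⋃ i : ℕ, ⋃ q : T (J₀ + i), S (J₀ + i) q) := measure_mono hcover
      _ ≤ ∑' i : ℕ, volume (⋃ q : T (J₀ + i), S (J₀ + i) q) := measure_iUnion_le _
      _ ≤ ∑' i : ℕ, ENNReal.ofReal (h / 8 * (3 / 4) ^ i) := by
          refine ENNReal.tsum_le_tsum fun i => ?_
          calc volume (⋃ q : T (J₀ + i), S (J₀ + i) q)
              ≤ ∑ q : T (J₀ + i), volume (S (J₀ + i) q) := measure_iUnion_fintype_le _ _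
            _ ≤ ∑ _q : T (J₀ + i), ENNReal.ofReal (8 / 2 ^ (J₀ + i)) :=
                Finset.sum_le_sum fun q _ => hS _ q
            _ = ENNReal.ofReal (((J₀ + i + 1 : ℕ) : ℝ) ^ (2 * (m + 1)) * (8 / 2 ^ (J₀ + i))) := by
                rw [Finset.sum_const, Finset.card_univ, hcard, nsmul_eq_mul,
                  ENNReal.ofReal_mul (by positivity), ← ENNReal.ofReal_natCast]
                push_cast
                rfl
            _ ≤ ENNReal.ofReal (h / 8 * (3 / 4) ^ i) := by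
                apply ENNReal.ofReal_le_ofReal
                have hgr := growth H1 H2 hh i
                have h2i : (0 : ℝ) < 2 ^ (J₀ + i) := by positivity
                rw [mul_div_assoc', div_le_iff₀ h2i]
                have e1 : h / 8 * (3 / 4) ^ i * 2 ^ (J₀ + i) = (h * 2 ^ J₀ * (3 / 2) ^ i) / 8 := by
                  rw [pow_add, show (3 / 4 : ℝ) = 3 / 2 * (1 / 2) by norm_num, mul_pow]
                  have : (1 / 2 : ℝ) ^ i * 2 ^ i = 1 := by rw [← mul_pow]; norm_num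
                  linear_combination (h / 8 * (3 / 2) ^ i * 2 ^ J₀) * this
                rw [e1]
                push_cast
                linarith
      _ = ENNReal.ofReal (∑' i : ℕ, h / 8 * (3 / 4) ^ i) := by
          rw [ENNReal.ofReal_tsum_of_nonneg (fun i => by positivity)]
          exact (summable_geometric_of_lt_one (by norm_num) (by norm_num)).mul_left _
      _ = ENNReal.ofReal (h / 2) := by
          rw [tsum_mul_left, tsum_geometric_of_lt_one (by norm_num) (by norm_num)]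
          congr 1
          ring
  rw [ENNReal.ofReal_le_ofReal_iff (by linarith)] at hbound
  linarith

end Pool.Agent.H44E
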